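import Pool.Agent.Lib.MP_78c6b1_al.Weil.Curve

/-!
Ultraproducts of fields and transfer of polynomial statements.
-/

namespace Pool.Agent.Lib.MP_78c6b1_al.Weil

open Polynomial Filter
open scoped Polynomial.Bivariate

variable (U : Ultrafilter ℕ) (F : ℕ → Type) [∀ i, Field (F i)]

/-- The families that vanish almost everywhere. -/
def null : Ideal (∀ i, F i) where
  carrier := {x | ∀ᶠ i in U, x i = 0}
  zero_mem' := Eventually.of_forall fun _ => rfl
  add_mem' ha hb := (Eventually.and ha hb).mono fun i h => by simp [h.1, h.2]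
  smul_mem' _ _ h := Eventually.mono h fun i h => by simp [h]

instance : (null U F).IsMaximal := by
  refine Ideal.isMaximal_iff.2 ⟨fun h => ?_, fun J x hJ hx hxJ => ?_⟩
  · obtain ⟨i, hi⟩ := (show ∀ᶠ i in U, (1 : ∀ i, F i) i = 0 from h).exists
    exact one_ne_zero hi
  · have h : 1 - x⁻¹ * x ∈ null U F :=
      (Ultrafilter.eventually_not.2 hx).mono fun i hi => by simp [hi]
    simpa using add_mem (hJ h) (J.mul_mem_left x⁻¹ hxJ)

/-- The ultraproduct. -/
def UP : Type := (∀ i, F i) ⧸ null U F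

noncomputable instance : Field (UP U F) := Ideal.Quotient.field _

/-- The quotient map. -/
noncomputable def pr : (∀ i, F i) →+* UP U F := Ideal.Quotient.mk (null U F)

lemma pr_surj : Function.Surjective (pr U F) := Ideal.Quotient.mk_surjective

variable {U F}

lemma pr_eq_zero {x : ∀ i, F i} : pr U F x = 0 ↔ ∀ᶠ i in U, x i = 0 := Ideal.Quotient.eq_zero_iff_mem

lemma pr_eq {x y : ∀ i, F i} : pr U F x = pr U F y ↔ ∀ᶠ i in U, x i = y i := by
  simp only [← sub_eq_zero (a := pr U F x), ← map_sub, pr_eq_zero, Pi.sub_apply, sub_eq_zero]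

lemma pr_div (x y : ∀ i, F i) : pr U F (x / y) = pr U F x / pr U F y := by
  by_cases h : pr U F y = 0
  · rw [h, div_zero, pr_eq_zero]
    exact (pr_eq_zero.1 h).mono fun i hi => by simp [hi]
  · rw [eq_div_iff h, ← map_mul, pr_eq]
    exact (Ultrafilter.eventually_not.2 (mt pr_eq_zero.2 h)).mono fun i hi => by simp [hi]

lemma map_pr_eq {σ : Type} {G H : MvPolynomial σ (∀ i, F i)} :
    G.map (pr U F) = H.map (pr U F) ↔
      ∀ᶠ i in U, G.map (Pi.evalRingHom F i) = H.map (Pi.evalRingHom F i) := by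
  classical
  simp only [MvPolynomial.ext_iff, MvPolynomial.coeff_map, pr_eq, Pi.evalRingHom_apply]
  refine ⟨fun h => ?_, fun h m => h.mono fun i hi => hi m⟩
  refine ((eventually_all_finset (G.support ∪ H.support)).2 fun m _ => h m).mono fun i hi m => ?_
  by_cases hm : m ∈ G.support ∪ H.support
  · exact hi m hm
  · simp only [Finset.mem_union, not_or, MvPolynomial.notMem_support_iff] at hm
    rw [hm.1, hm.2]

lemma assemble {σ : Type} [Finite σ] (d : ℕ) (s : ∀ i, MvPolynomial σ (F i)) :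
    ∃ G : MvPolynomial σ (∀ i, F i),
      ∀ i, (s i).totalDegree ≤ d → G.map (Pi.evalRingHom F i) = s i := by
  classical
  refine ⟨∑ m ∈ (Finsupp.finite_of_degree_le (σ := σ) d).toFinset,
    MvPolynomial.monomial m fun i => (s i).coeff m, fun i hi => MvPolynomial.ext _ _ fun m => ?_⟩
  simp only [map_sum, MvPolynomial.map_monomial, MvPolynomial.coeff_sum, MvPolynomial.coeff_monomial,
    Finset.sum_ite_eq', Set.Finite.mem_toFinset, Set.mem_ofPred_eq, Pi.evalRingHom_apply]
  split_ifs with h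
  · rfl
  · exact (MvPolynomial.coeff_eq_zero_of_totalDegree_lt (hi.trans_lt (not_le.1 h))).symm

lemma eventually_isUnit {σ : Type} {G : MvPolynomial σ (∀ i, F i)} (h : IsUnit (G.map (pr U F))) :
    ∀ᶠ i in U, IsUnit (G.map (Pi.evalRingHom F i)) := by
  obtain ⟨c, hc⟩ := h.exists_right_inv
  obtain ⟨c, rfl⟩ := MvPolynomial.map_surjective _ (pr_surj U F) c
  rw [← map_mul, ← map_one (MvPolynomial.map (pr U F)), map_pr_eq] at hc
  exact hc.mono fun i hi => IsUnit.of_mul_eq_one _ (by simpa using hi)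

lemma eventually_irreducible_mv {σ : Type} [Finite σ] {G : MvPolynomial σ (∀ i, F i)}
    (h : Irreducible (G.map (pr U F))) : ∀ᶠ i in U, Irreducible (G.map (Pi.evalRingHom F i)) := by
  have h0 : ∀ᶠ i in U, G.map (Pi.evalRingHom F i) ≠ 0 := Ultrafilter.eventually_not.2 fun e =>
    h.ne_zero (by simpa using (map_pr_eq (H := 0)).2 (by simpa using e))
  have h1 : ∀ᶠ i in U, ¬ IsUnit (G.map (Pi.evalRingHom F i)) := Ultrafilter.eventually_not.2 fun e => by
    choose! c hc using fun i (h : IsUnit (G.map (Pi.evalRingHom F i))) => h.exists_right_inv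
    obtain ⟨C, hC⟩ := assemble 0 c
    refine h.not_isUnit (IsUnit.of_mul_eq_one (C.map (pr U F)) ?_)
    rw [← map_mul, ← map_one (MvPolynomial.map (pr U F)), map_pr_eq]
    refine e.mono fun i hi => ?_
    rw [map_mul, map_one, hC i, hc i hi]
    simpa using MvPolynomial.totalDegree_le_of_dvd_of_isDomain (Dvd.intro_left _ (hc i hi)) one_ne_zero
  by_contra hn
  have h2 := ((Ultrafilter.eventually_not.2 hn).and (h0.and h1))
  have h3 : ∀ i, ¬ Irreducible (G.map (Pi.evalRingHom F i)) ∧ G.map (Pi.evalRingHom F i) ≠ 0 ∧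
      ¬ IsUnit (G.map (Pi.evalRingHom F i)) → ∃ a b, G.map (Pi.evalRingHom F i) = a * b ∧
        ¬ IsUnit a ∧ ¬ IsUnit b := fun i hi => by
    simpa [irreducible_iff, hi.2.2] using hi.1
  choose! a b hab using h3
  obtain ⟨A, hA⟩ := assemble G.totalDegree a
  obtain ⟨B, hB⟩ := assemble G.totalDegree b
  have h4 : ∀ᶠ i in U, A.map (Pi.evalRingHom F i) = a i ∧ B.map (Pi.evalRingHom F i) = b i :=
    h2.mono fun i hi => by
      have : (G.map (Pi.evalRingHom F i)).totalDegree ≤ G.totalDegree :=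
        Finset.sup_mono (MvPolynomial.support_map_subset _ _)
      exact ⟨hA i ((MvPolynomial.totalDegree_le_of_dvd_of_isDomain
        (Dvd.intro _ (hab i hi).1.symm) hi.2.1).trans this), hB i
        ((MvPolynomial.totalDegree_le_of_dvd_of_isDomain
          (Dvd.intro_left _ (hab i hi).1.symm) hi.2.1).trans this)⟩
  have h5 : G.map (pr U F) = A.map (pr U F) * B.map (pr U F) := by
    rw [← map_mul, map_pr_eq]
    exact (h2.and h4).mono fun i hi => by rw [map_mul, hi.2.1, hi.2.2, (hab i hi.1).1]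
  rcases h.isUnit_or_isUnit h5 with h6 | h6
  · obtain ⟨i, a1, a2, a3⟩ := ((eventually_isUnit h6).and (h2.and h4)).exists
    exact (hab i a2).2.1 (a3.1 ▸ a1)
  · obtain ⟨i, a1, a2, a3⟩ := ((eventually_isUnit h6).and (h2.and h4)).exists
    exact (hab i a2).2.2 (a3.2 ▸ a1)

lemma equiv_map {A B : Type} [CommRing A] [CommRing B] (ρ : A →+* B) (G : A[X][Y]) :
    Bivariate.equivMvPolynomial B (G.map (mapRingHom ρ)) =
      (Bivariate.equivMvPolynomial A G).map ρ := by
  have : ((Bivariate.equivMvPolynomial B).toRingEquiv.toRingHom.comp (mapRingHom (mapRingHom ρ))) =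
      (MvPolynomial.map ρ).comp (Bivariate.equivMvPolynomial A).toRingEquiv.toRingHom := by
    ext <;> simp
  exact DFunLike.congr_fun this G

lemma eventually_irreducible {G : (∀ i, F i)[X][Y]} (h : Irreducible (G.map (mapRingHom (pr U F)))) :
    ∀ᶠ i in U, Irreducible (G.map (mapRingHom (Pi.evalRingHom F i))) := by
  rw [← MulEquiv.irreducible_iff (Bivariate.equivMvPolynomial _), equiv_map] at h
  refine (eventually_irreducible_mv h).mono fun i hi => ?_
  rwa [← MulEquiv.irreducible_iff (Bivariate.equivMvPolynomial _), equiv_map]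

lemma par_iff {A K σ ι : Type} [CommRing A] [Div A] [Field K] (ρ : A →+* K)
    (hρ : ∀ a b, ρ (a / b) = ρ a / ρ b) (S : ι → MvPolynomial σ A) (f : A[X][Y]) (h : A[X])
    (g : σ → A[X][Y]) (P Q : MvPolynomial σ A) (x y : A) :
    Par (fun i => (S i).map ρ) (f.map (mapRingHom ρ)) (h.map ρ) (fun j => (g j).map (mapRingHom ρ))
      (P.map ρ) (Q.map ρ) (ρ x) (ρ y) ↔
    (ρ (f.evalEval x y) = 0 → ρ (h.eval x) ≠ 0 →
      (∀ i, ρ (MvPolynomial.eval (fun j => (g j).evalEval x y / h.eval x) (S i)) = 0) ∧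
      ρ (MvPolynomial.eval (fun j => (g j).evalEval x y / h.eval x) P) = ρ x ∧
      ρ (MvPolynomial.eval (fun j => (g j).evalEval x y / h.eval x) Q) = ρ y) := by
  simp only [Par, map_mapRingHom_evalEval, eval_map_apply, MvPolynomial.map_eval,
    Function.comp_def, hρ]

lemma eventually_par {σ ι : Type} [Finite ι] {S : ι → MvPolynomial σ (∀ i, F i)}
    {f : (∀ i, F i)[X][Y]} {h : (∀ i, F i)[X]} {g : σ → (∀ i, F i)[X][Y]}
    {P Q : MvPolynomial σ (∀ i, F i)}
    (H : ∀ x y, Par (fun j => (S j).map (pr U F)) (f.map (mapRingHom (pr U F))) (h.map (pr U F))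
      (fun j => (g j).map (mapRingHom (pr U F))) (P.map (pr U F)) (Q.map (pr U F)) x y) :
    ∀ᶠ i in U, ∀ x y, Par (fun j => (S j).map (Pi.evalRingHom F i))
      (f.map (mapRingHom (Pi.evalRingHom F i))) (h.map (Pi.evalRingHom F i))
      (fun j => (g j).map (mapRingHom (Pi.evalRingHom F i))) (P.map (Pi.evalRingHom F i))
      (Q.map (Pi.evalRingHom F i)) x y := by
  by_contra hn
  have h1 := Ultrafilter.eventually_not.2 hn
  simp only [not_forall] at h1
  choose! x y hxy using fun i (h : ∃ x y, ¬ Par (fun j => (S j).map (Pi.evalRingHom F i))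
      (f.map (mapRingHom (Pi.evalRingHom F i))) (h.map (Pi.evalRingHom F i))
      (fun j => (g j).map (mapRingHom (Pi.evalRingHom F i))) (P.map (Pi.evalRingHom F i))
      (Q.map (Pi.evalRingHom F i)) x y) => h
  have h2 := h1.mono fun i hi => mt (par_iff (Pi.evalRingHom F i) (fun _ _ => rfl) S f h g P Q x y).2
    (hxy i hi)
  have h3 := (par_iff (pr U F) pr_div S f h g P Q x y).1 (H _ _)
  simp only [Classical.not_imp, Pi.evalRingHom_apply, eventually_and] at h2
  simp only [Ne, pr_eq_zero, pr_eq] at h3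
  obtain ⟨a1, a2, a3⟩ := h3 h2.1 (Ultrafilter.eventually_not.1 h2.2.1)
  obtain ⟨i, b1, b2, b3, b4⟩ := (h2.2.2.and ((eventually_all.2 a1).and (a2.and a3))).exists
  exact b1 ⟨b2, b3, b4⟩

/-- The map of ultraproducts induced by a family of maps. -/
noncomputable def upMap {E : ℕ → Type} [∀ i, Field (E i)] (ι : ∀ i, F i →+* E i) :
    UP U F →+* UP U E :=
  Ideal.Quotient.lift _ ((pr U E).comp (RingHom.pi fun i => (ι i).comp (Pi.evalRingHom F i)))
    fun _ h => pr_eq_zero.2 (Eventually.mono h fun i hi => by simp [hi])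

lemma not_countable (hU : (U : Filter ℕ) ≤ atTop) {σ ι : Type} [Finite σ]
    (S : ι → MvPolynomial σ (∀ i, F i))
    (h : ∀ i, i < Nat.card {z : σ → F i // ∀ j, MvPolynomial.eval z ((S j).map (Pi.evalRingHom F i)) = 0}) :
    ¬ {z : σ → UP U F | ∀ j, MvPolynomial.eval z ((S j).map (pr U F)) = 0}.Countable := by
  intro hc
  obtain ⟨w, hw⟩ := Set.countable_iff_exists_subset_range.1 hc
  choose v hv using fun m j => pr_surj U F (w m j)
  have : ∀ i, ∃ z : σ → F i, (∀ j, MvPolynomial.eval z ((S j).map (Pi.evalRingHom F i)) = 0) ∧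
      ∀ m < i, z ≠ fun j => v m j i := fun i => by
    by_contra! hn
    choose m hm e using hn
    refine absurd (Nat.card_le_card_of_injective
      (fun z : {z : σ → F i // ∀ j, MvPolynomial.eval z ((S j).map (Pi.evalRingHom F i)) = 0} =>
        (⟨m z.1 z.2, hm z.1 z.2⟩ : Fin i)) fun z z' e' => Subtype.ext ?_) (by simpa using h i)
    rw [e z.1 z.2, e z'.1 z'.2, Fin.mk.inj e']
  choose z h1 h2 using this
  obtain ⟨m, hm⟩ := hw (a := fun j => pr U F fun i => z i j) fun j => by
    rw [← Function.comp_def (pr U F), ← MvPolynomial.map_eval, pr_eq_zero]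
    exact Eventually.of_forall fun i => (MvPolynomial.map_eval (Pi.evalRingHom F i) _ _).trans (h1 i j)
  have h3 : ∀ j, ∀ᶠ i in U, z i j = v m j i := fun j =>
    pr_eq.1 ((congrFun hm j).symm.trans (hv m j).symm)
  obtain ⟨i, a1, a2⟩ := ((eventually_all.2 h3).and (hU (eventually_gt_atTop m))).exists
  exact h2 i m a2 (funext a1)

end Pool.Agent.Lib.MP_78c6b1_al.Weil
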