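import Pool.Agent.Lib.MP_78c6b1_al.Weil.Gap
import Pool.Agent.Lib.MP_78c6b1_al.Neg.Iface

/-! The point count block of the interface. -/

namespace Pool.Agent.P78

theorem gapStmt : GapStmt := fun n d _ h => Lib.MP_78c6b1_al.Weil.gap_closed (Fin n) d h

end Pool.Agent.P78
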