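import Pool.Agent.Lib.MP_78c6b1_al.Weil.Filt

/-!
Branches of a plane curve, the tangent derivation and the non-vanishing lemma.
-/

namespace Pool.Agent.Lib.MP_78c6b1_al.Weil

open Polynomial Module Finset

variable {E R : Type} [Field E] [CommRing R] [Algebra E R]

/-- The coefficients of the derivative in the second variable. -/
noncomputable def dy (g : ℕ → E[X]) (k : ℕ) : E[X] := C ((k + 1 : ℕ) : E) * g (k + 1)

lemma der_ev {A : Type} [CommRing A] [Algebra E A] (d : Derivation E A A) (g : ℕ → E[X]) (N : ℕ)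
    (s t : A) : d (ev g (N + 1) s t) =
      ev (fun k => derivative (g k)) (N + 1) s t * d s + ev (dy g) N s t * d t := by
  simp only [ev, map_sum, Derivation.leibniz, Derivation.leibniz_pow, Derivation.map_aeval,
    sum_add_distrib, sum_mul]
  rw [add_comm]
  congr 1
  · exact sum_congr rfl fun k _ => by simp only [smul_eq_mul]; ring
  · rw [sum_range_succ']
    simp only [dy, smul_eq_mul, nsmul_eq_mul, map_mul, map_natCast]
    simp only [Nat.cast_zero, zero_mul, mul_zero, add_zero, Nat.add_sub_cancel]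
    exact sum_congr rfl fun k _ => by ring

lemma X_pow_dvd_of_iter {p : ℕ} [CharP E p] {u : PowerSeries E}
    (hu : PowerSeries.constantCoeff u ≠ 0) {M : ℕ} (hM : M ≤ p) (s : PowerSeries E)
    (h : ∀ l < M, PowerSeries.constantCoeff
      ((fun s => u * PowerSeries.derivative E s)^[l] s) = 0) : PowerSeries.X ^ M ∣ s := by
  induction M generalizing s with
  | zero => simp
  | succ M ih =>
    have h1 := ih (by omega) (u * PowerSeries.derivative E s) fun l hl => h (l + 1) (by omega)
    rw [(PowerSeries.isUnit_iff_constantCoeff.2 hu.isUnit).dvd_mul_left,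
      PowerSeries.X_pow_dvd_iff] at h1
    rw [PowerSeries.X_pow_dvd_iff]
    rintro (_ | l) hl
    · simpa using h 0 (by omega)
    · have h2 := h1 l (by omega)
      rw [PowerSeries.coeff_derivative, mul_eq_zero] at h2
      refine h2.resolve_right fun e => ?_
      have h3 : ((l + 1 : ℕ) : E) = 0 := by exact_mod_cast e
      exact absurd (Nat.le_of_dvd (by omega) ((CharP.cast_eq_zero_iff E p _).1 h3)) (by omega)

instance {p : ℕ} [CharP E p] : CharP (PowerSeries E) p :=
  charP_of_injective_algebraMap (algebraMap E (PowerSeries E)).injective p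

namespace Cv

variable (c : Cv E R)

/-- The derivative of the equation in the first variable. -/
noncomputable def fx : R := ev (fun k => derivative (c.g k)) (c.n + 2) c.x c.y

/-- The derivative of the equation in the second variable. -/
noncomputable def fy : R := ev (dy c.g) (c.n + 1) c.x c.y

lemma fx_mem : c.fx ∈ c.V (c.D * (c.n + 2)) :=
  c.ev_mem (fun k => (natDegree_derivative_le _).trans ((Nat.sub_le _ _).trans (c.hD k))) _

lemma fy_mem : c.fy ∈ c.V (c.D * (c.n + 2)) :=
  c.V_mono (Nat.mul_le_mul_left _ (by omega))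
    (c.ev_mem (fun k => (natDegree_C_mul_le _ _).trans (c.hD _)) _)

/-- The polynomial in the second variable. -/
noncomputable def pol {A : Type} [CommRing A] [Algebra E A] (a : A) : A[X] :=
  X ^ (c.n + 1) + ∑ k ∈ range (c.n + 1), C (aeval a (c.g k)) * X ^ k

lemma pol_lt {A : Type} [CommRing A] [Algebra E A] (a : A) :
    (∑ k ∈ range (c.n + 1), C (aeval a (c.g k)) * X ^ k : A[X]).degree < (c.n + 1 : ℕ) := by
  rw [← Fin.sum_univ_eq_sum_range (fun k => C (aeval a (c.g k)) * X ^ k)]
  exact degree_sum_fin_lt _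

lemma pol_monic {A : Type} [CommRing A] [Algebra E A] (a : A) : (c.pol a).Monic :=
  monic_X_pow_add (c.pol_lt a)

lemma pol_natDegree (a : E) : (c.pol a).natDegree = c.n + 1 := by
  rw [pol, natDegree_add_eq_left_of_degree_lt (by rw [degree_X_pow]; exact c.pol_lt a),
    natDegree_X_pow]

lemma pol_eval {A : Type} [CommRing A] [Algebra E A] (a b : A) :
    (c.pol a).eval b = ev c.g (c.n + 2) a b := by
  rw [ev, sum_range_succ, c.top, add_comm]
  simp [pol, eval_finsetSum]

lemma pol_der {A : Type} [CommRing A] [Algebra E A] (a b : A) :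
    (derivative (c.pol a)).eval b = ev (dy c.g) (c.n + 1) a b := by
  rw [ev, sum_range_succ, add_comm, pol, sum_range_succ']
  simp only [dy, c.top, derivative_add, derivative_X_pow, derivative_sum, derivative_mul,
    derivative_C, eval_add, eval_finsetSum, eval_mul, eval_C, eval_pow, eval_X, map_mul,
    map_natCast, eval_natCast, eval_zero]
  simp only [Nat.cast_zero, zero_mul, mul_zero, add_zero, Nat.add_sub_cancel, zero_add, map_one,
    mul_one]
  congr 1
  exact sum_congr rfl fun k _ => by ring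

lemma exists_branch {a b : E} (h : ev c.g (c.n + 2) a b = 0) (h' : ev (dy c.g) (c.n + 1) a b ≠ 0) :
    ∃ φ : R →ₐ[E] PowerSeries E, φ c.x = PowerSeries.C a + PowerSeries.X ∧ cc E (φ c.y) = b := by
  obtain ⟨t, h1, h2⟩ := HenselianRing.is_henselian
    (I := Ideal.span {(PowerSeries.X : PowerSeries E)}) _
    (c.pol_monic (PowerSeries.C a + PowerSeries.X)) (PowerSeries.C b) (by
      rw [Ideal.mem_span_singleton, PowerSeries.X_dvd_iff, pol_eval, ← cc_apply, map_ev]
      simpa using h) (IsUnit.map _ (by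
      rw [PowerSeries.isUnit_iff_constantCoeff, pol_der, ← cc_apply, map_ev]
      simpa using h'))
  obtain ⟨φ, e1, e2⟩ := c.lift _ t ((c.pol_eval _ t).symm.trans h1)
  refine ⟨φ, e1, ?_⟩
  rw [Ideal.mem_span_singleton, PowerSeries.X_dvd_iff] at h2
  simpa [e2, sub_eq_zero] using h2

/-- The tangent derivation. -/
noncomputable def Dop : R →ₗ[E] R := c.B.constr E fun ij =>
  (ij.1 : E) • (c.x ^ (ij.1 - 1) * c.y ^ (ij.2 : ℕ) * c.fy) -
    ((ij.2 : ℕ) : E) • (c.x ^ ij.1 * c.y ^ ((ij.2 : ℕ) - 1) * c.fx)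

/-- The degree shift of the derivation. -/
def sh : ℕ := c.D * c.n + c.D * (c.n + 2)

lemma Dop_mem {m : ℕ} {r : R} (hr : r ∈ c.V m) : c.Dop r ∈ c.V (m + c.sh) := by
  refine (show c.U (m + 1) ≤ (c.V (m + c.sh)).comap c.Dop from Submodule.span_le.2 ?_) (c.V_le m hr)
  rintro _ ⟨⟨i, j⟩, rfl⟩
  have hi := i.2
  have hj : c.D * j ≤ c.D * c.n := Nat.mul_le_mul_left _ (Nat.lt_succ_iff.1 j.2)
  have hj' : c.D * (j - 1) ≤ c.D * j := Nat.mul_le_mul_left _ (Nat.sub_le _ _)
  simp only [SetLike.mem_coe, Submodule.mem_comap, Dop, Basis.constr_basis, sh, ← add_assoc]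
  exact sub_mem (Submodule.smul_mem _ _ (V_mul (c.mono_mem (by omega)) c.fy_mem))
    (Submodule.smul_mem _ _ (V_mul (c.mono_mem (by omega)) c.fx_mem))

lemma iter_mem {m : ℕ} {r : R} (hr : r ∈ c.V m) (l : ℕ) : (c.Dop ^ l) r ∈ c.V (m + l * c.sh) := by
  induction l with
  | zero => simpa using hr
  | succ l ih => rw [pow_succ', add_mul, one_mul, ← add_assoc]; exact c.Dop_mem ih

variable {c} {φ : R →ₐ[E] PowerSeries E} {a : E}

lemma map_Dop (ha : φ c.x = PowerSeries.C a + PowerSeries.X) (r : R) :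
    φ (c.Dop r) = φ c.fy * PowerSeries.derivative E (φ r) := by
  have h1 : PowerSeries.derivative E (φ c.x) = 1 := by simp [ha]
  have h2 := der_ev (PowerSeries.derivative E) c.g (c.n + 1) (φ c.x) (φ c.y)
  rw [← map_ev, ← map_ev, ← map_ev, c.rel, map_zero, map_zero, h1] at h2
  have : φ.toLinearMap.comp c.Dop = (LinearMap.mulLeft E (φ c.fy)).comp
      ((PowerSeries.derivative E).toLinearMap.comp φ.toLinearMap) := c.B.ext fun ij => by
    simp only [LinearMap.comp_apply, Dop, Basis.constr_basis]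
    simp only [c.hB, AlgHom.toLinearMap_apply, map_sub, map_mul, map_pow,
      LinearMap.mulLeft_apply, Derivation.coeFn_coe, Derivation.leibniz, Derivation.leibniz_pow, h1,
      smul_eq_mul, nsmul_eq_mul, Algebra.smul_def, map_natCast]
    rw [fx, fy]
    linear_combination ((ij.2 : ℕ) * φ c.x ^ ij.1 * φ c.y ^ ((ij.2 : ℕ) - 1)) * h2
  exact congrArg (fun L : R →ₗ[E] PowerSeries E => L r) this

lemma map_iter (ha : φ c.x = PowerSeries.C a + PowerSeries.X) (l : ℕ) (r : R) :
    φ ((c.Dop ^ l) r) = (fun s => φ c.fy * PowerSeries.derivative E s)^[l] (φ r) := by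
  induction l with
  | zero => rfl
  | succ l ih => rw [pow_succ', Function.iterate_succ_apply', ← ih]; exact map_Dop ha _

variable [IsDomain R]

lemma eq_zero_of_dvd (ha : φ c.x = PowerSeries.C a + PowerSeries.X) {r : R} {m M : ℕ}
    (hr : r ∈ c.V m) (hM : (m + c.D * c.n + 1) * (c.n + 1) < M) (h : PowerSeries.X ^ M ∣ φ r) :
    r = 0 := by
  by_contra h0
  have := c.mult_le (ι := Unit) (fun _ => φ) (fun _ => a) (fun _ => ha)
    (fun _ _ _ => Subsingleton.elim _ _) h0 hr fun _ => h
  simp only [Fintype.card_unit, one_mul] at this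
  omega

lemma nonvan [IsAlgClosed E] {p : ℕ} [Fact p.Prime] [CharP E p]
    (ha : φ c.x = PowerSeries.C a + PowerSeries.X) {m : ℕ}
    (hm : (m + c.D * c.n + 1) * (c.n + 1) < p) {ι : Type} [Fintype ι] {s h : ι → R}
    (hs : ∀ i, s i ∈ c.V m) (hh : LinearIndependent E h) (e : ∑ i, s i * h i ^ p = 0) (i : ι) :
    s i = 0 := by
  have key : ∀ (k : ℕ) (H : ι → PowerSeries E), ∑ i, φ (s i) * H i ^ p = 0 →
      ∑ i, PowerSeries.coeff k (H i) ^ p • s i = 0 := by
    have step : ∀ H : ι → PowerSeries E, ∑ i, φ (s i) * H i ^ p = 0 →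
        ∑ i, PowerSeries.coeff 0 (H i) ^ p • s i = 0 ∧
        ∑ i, φ (s i) * (PowerSeries.mk fun k => PowerSeries.coeff (k + 1) (H i)) ^ p = 0 := by
      intro H hH
      have h1 : PowerSeries.X ^ p *
          ∑ i, φ (s i) * (PowerSeries.mk fun k => PowerSeries.coeff (k + 1) (H i)) ^ p +
          φ (∑ i, PowerSeries.coeff 0 (H i) ^ p • s i) = 0 := by
        rw [← hH, map_sum, mul_sum, ← sum_add_distrib]
        refine sum_congr rfl fun i _ => ?_
        conv_rhs => rw [PowerSeries.eq_X_mul_shift_add_const (H i), add_pow_char]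
        rw [map_smul, PowerSeries.smul_eq_C_mul, map_pow, PowerSeries.coeff_zero_eq_constantCoeff]
        ring
      have h2 : ∑ i, PowerSeries.coeff 0 (H i) ^ p • s i = 0 :=
        eq_zero_of_dvd ha (sum_mem fun i _ => Submodule.smul_mem _ _ (hs i)) hm
          ⟨_, by rw [mul_neg]; exact eq_neg_of_add_eq_zero_right h1⟩
      rw [h2, map_zero, add_zero] at h1
      exact ⟨h2, (mul_eq_zero.1 h1).resolve_left (pow_ne_zero _ PowerSeries.X_ne_zero)⟩
    intro k
    induction k with
    | zero => exact fun H hH => (step H hH).1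
    | succ k ih => exact fun H hH => by simpa using ih _ (step H hH).2
  rw [← Module.forall_dual_apply_eq_zero_iff E]
  intro l
  have hp := (Fact.out : p.Prime).pos
  choose μ hμ using fun i => IsAlgClosed.exists_pow_nat_eq (l (s i)) hp
  have h1 : φ (∑ i, μ i • h i) = 0 := by
    ext k
    have := congrArg l (key k (fun i => φ (h i)) (by simpa using congrArg φ e))
    simp only [map_sum, map_smul, map_zero, ← hμ, smul_eq_mul, ← mul_pow, ← sum_pow_char] at this
    simpa [mul_comm] using pow_eq_zero_iff hp.ne' |>.1 this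
  obtain ⟨m', hm'⟩ := c.exists_V (∑ i, μ i • h i)
  have h2 := eq_zero_of_dvd ha hm' (Nat.lt_succ_self _) (h1 ▸ dvd_zero _)
  rw [← hμ, Fintype.linearIndependent_iff.1 hh μ h2 i, zero_pow hp.ne']

end Cv

end Pool.Agent.Lib.MP_78c6b1_al.Weil
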