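import Pool.Agent.Lib.MP_78c6b1_al.Weil.Step

/-!
A lower bound for the number of points of an absolutely irreducible plane curve over a prime field.
-/

namespace Pool.Agent.Lib.MP_78c6b1_al.Weil

open Polynomial Module Finset
open scoped Polynomial.Bivariate

section

variable {E R : Type} [Field E] [CommRing R] [Algebra E R] [IsDomain R] [IsAlgClosed E] {p : ℕ}
  [Fact p.Prime] [CharP E p]

omit [IsAlgClosed E] in
lemma ev_frob {g : ℕ → E[X]} (hg : ∀ k, (g k).map (frobenius E p) = g k) {N : ℕ} {a b : E}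
    (ha : a ^ p = a) (h : ev g N a b = 0) : ev g N a (b ^ p) = 0 := by
  have := congrArg (frobenius E p) h
  rw [map_zero, ev, map_sum] at this
  rw [← this, ev]
  refine sum_congr rfl fun k _ => ?_
  rw [map_mul, map_pow, coe_aeval_eq_eval, ← eval_map_apply, hg, frobenius_def, frobenius_def, ha]

open Classical in
lemma Cv.count (c : Cv E R) (ι : ZMod p →+* E) (hg : ∀ k, (c.g k).map (frobenius E p) = c.g k)
    (hy : c.fy ≠ 0) (m J M : ℕ) (hM : M ≤ p)
    (hm : (m + c.D * c.n + c.D * c.n + 1) * (c.n + 1) < p)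
    (h : M * c.n * (m + c.D * c.n + M * c.sh + J + c.D + 1) < J * (c.n + 1) * m) :
    p * (c.n + 1) * M ≤ ((c.n + 2) * ((c.D * (c.n + 2) + c.D * c.n + 1) * (c.n + 1)) +
      Nat.card {ab : ZMod p × ZMod p // ev c.g (c.n + 2) (ι ab.1) (ι ab.2) = 0}) * M +
      (m + c.D * c.n + p * (J + c.D * c.n) + c.D * c.n + 1) * (c.n + 1) := by
  set S : Finset (Σ _ : ZMod p, E) := univ.sigma fun a => (c.pol (ι a)).roots.toFinset with hS
  have mem : ∀ z, z ∈ S ↔ ev c.g (c.n + 2) (ι z.1) z.2 = 0 := fun z => by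
    simp [hS, (c.pol_monic (ι z.1)).ne_zero, c.pol_eval]
  have inj : ∀ T : Finset (Σ _ : ZMod p, E), Function.Injective fun i : T => (ι i.1.1, i.1.2) := by
    rintro T ⟨⟨a, b⟩, _⟩ ⟨⟨a', b'⟩, _⟩ e
    obtain rfl : a = a' := ι.injective (Prod.ext_iff.1 e).1
    obtain rfl : b = b' := (Prod.ext_iff.1 e).2
    rfl
  have hι : ∀ a, ι a ^ p = ι a := fun a => by rw [← map_pow, ZMod.pow_card]
  set S₀ := S.filter fun z => ev (dy c.g) (c.n + 1) (ι z.1) z.2 = 0
  set S₁ := S.filter fun z => z.2 ^ p = z.2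
  set S₂ := S.filter fun z => ev (dy c.g) (c.n + 1) (ι z.1) z.2 ≠ 0 ∧ z.2 ^ p ≠ z.2
  have h0 : S₀.card ≤ (c.D * (c.n + 2) + c.D * c.n + 1) * (c.n + 1) := by
    choose ψ e1 e2 using fun i : S₀ => c.lift _ _ ((mem i).1 (mem_filter.1 i.2).1)
    rw [← Fintype.card_coe]
    refine c.zeros_le ψ (by simpa only [e1, e2] using inj S₀) hy c.fy_mem fun i => ?_
    rw [Cv.fy, map_ev, e1, e2]
    exact (mem_filter.1 i.2).2
  have h1 : S₁.card ≤
      Nat.card {ab : ZMod p × ZMod p // ev c.g (c.n + 2) (ι ab.1) (ι ab.2) = 0} := by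
    have : ∀ z : S₁, ∃ b, ι b = z.1.2 := fun z => by
      have := (Subfield.mem_bot_iff_pow_eq_self E p).2 (mem_filter.1 z.2).2
      rw [← ZMod.fieldRange_castHom_eq_bot p] at this
      obtain ⟨b, hb⟩ := this
      exact ⟨b, by rw [← hb, Subsingleton.elim ι]⟩
    choose b hb using this
    rw [← Fintype.card_coe, ← Nat.card_eq_fintype_card]
    refine Nat.card_le_card_of_injective
      (fun z => ⟨(z.1.1, b z), by rw [hb]; exact (mem z).1 (mem_filter.1 z.2).1⟩) fun z z' e => ?_
    have e := Prod.ext_iff.1 (congrArg Subtype.val e)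
    exact inj S₁ (Prod.ext (congrArg ι e.1) (by simpa only [hb] using congrArg ι e.2))
  have h2 := c.stepanov (fun i : S₂ => ι i.1.1) (fun i => i.1.2) (inj S₂) (fun _ => hι _)
    (fun i => (mem_filter.1 i.2).2.2) (fun i => (mem i).1 (mem_filter.1 i.2).1)
    (fun i => ev_frob hg (hι _) ((mem i).1 (mem_filter.1 i.2).1))
    (fun i => (mem_filter.1 i.2).2.1) m J M hM hm h
  rw [Fintype.card_coe] at h2
  have h3 : S.card ≤ S₀.card + S₁.card + S₂.card := by
    refine le_trans (card_le_card fun z hz => ?_)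
      ((card_union_le (S₀ ∪ S₁) S₂).trans (Nat.add_le_add_right (card_union_le _ _) _))
    simp only [mem_union, S₀, S₁, S₂, mem_filter, hz, true_and]
    tauto
  have h4 : p * (c.n + 1) ≤ S.card + S₀.card * (c.n + 1) := by
    have h5 : ∀ a ∈ univ \ S₀.image (·.1), c.n + 1 ≤ (c.pol (ι a)).roots.toFinset.card := by
      intro a ha
      rw [Multiset.toFinset_card_of_nodup, IsAlgClosed.card_roots_eq_natDegree, c.pol_natDegree]
      rw [Multiset.nodup_iff_count_le_one]
      intro b
      rw [count_roots]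
      by_contra hb
      have := (one_lt_rootMultiplicity_iff_isRoot (c.pol_monic (ι a)).ne_zero).1 (not_le.1 hb)
      rw [IsRoot, IsRoot, c.pol_eval, c.pol_der] at this
      exact (mem_sdiff.1 ha).2 (mem_image.2 ⟨⟨a, b⟩, mem_filter.2 ⟨(mem _).2 this.1, this.2⟩, rfl⟩)
    have h6 := card_nsmul_le_sum _ _ _ h5
    have h7 : ∑ a ∈ univ \ S₀.image (·.1), (c.pol (ι a)).roots.toFinset.card ≤ S.card := by
      rw [hS, card_sigma]
      exact sum_le_sum_of_subset sdiff_subset
    have h8 := card_sdiff_add_card_eq_card (subset_univ (S₀.image (·.1)))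
    have h9 : (S₀.image (·.1)).card ≤ S₀.card := card_image_le
    rw [card_univ, ZMod.card] at h8
    rw [smul_eq_mul] at h6
    nlinarith
  have h5 : p * (c.n + 1) ≤ (c.n + 2) * ((c.D * (c.n + 2) + c.D * c.n + 1) * (c.n + 1)) +
      Nat.card {ab : ZMod p × ZMod p // ev c.g (c.n + 2) (ι ab.1) (ι ab.2) = 0} + S₂.card := by
    nlinarith
  nlinarith

end

lemma ev_coeff {E A : Type} [Field E] [CommRing A] [Algebra E A] {f : E[X][Y]} {N : ℕ}
    (h : f.natDegree < N) (a b : A) :
    ev f.coeff N a b = f.eval₂ (aeval a : E[X] →ₐ[E] A) b := by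
  rw [eval₂_eq_sum_range' _ h]; rfl

/-- The coordinate ring of a monic plane curve. -/
noncomputable def cvOf {E : Type} [Field E] (f : E[X][Y]) (hf : f.Monic) (n D : ℕ)
    (hn : f.natDegree = n + 1) (hD : ∀ k, (f.coeff k).natDegree ≤ D) : Cv E (AdjoinRoot f) where
  x := AdjoinRoot.of f X
  y := AdjoinRoot.root f
  n := n
  D := D
  g := f.coeff
  hD := hD
  top := hn ▸ hf.coeff_natDegree
  rel := by
    rw [ev_coeff (by omega), ← AdjoinRoot.eval₂_root f]
    congr 1
    exact congrArg AlgHom.toRingHom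
      (algHom_ext (by simp) : (aeval (AdjoinRoot.of f X)) = AdjoinRoot.ofAlgHom E f)
  B := (basisMonomials E).smulTower
    ((AdjoinRoot.powerBasis' hf).basis.reindex (finCongr ((AdjoinRoot.powerBasis'_dim hf).trans hn)))
  hB ij := by simp [Algebra.smul_def, ← X_pow_eq_monomial]
  lift a b h := by
    rw [ev_coeff (by omega)] at h
    exact ⟨AdjoinRoot.liftAlgHom f (aeval a) b h, by simp, by simp⟩

theorem weil_nat (n D s : ℕ) : ∃ C : ℕ, ∀ (p : ℕ) [Fact p.Prime] (f : (ZMod p)[X][Y]), f.Monic →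
    f.natDegree = n + 1 → (∀ k, (f.coeff k).natDegree ≤ D) →
    Irreducible (f.map (mapRingHom (algebraMap (ZMod p) (AlgebraicClosure (ZMod p))))) → C < p →
    s * p ≤ s * Nat.card {ab : ZMod p × ZMod p // f.evalEval ab.1 ab.2 = 0} +
      p * (1 + D * n) + C := by
  set M := (n + 1) * s with hM
  set J := n * s + 1 with hJ
  set K := D * n + M * (D * n + D * (n + 2)) + J + D + 1 with hK
  set m := M * n * K + 1 with hm
  refine ⟨M + (m + D * n + D * n + 1) * (n + 1) +
    s * ((n + 2) * ((D * (n + 2) + D * n + 1) * (n + 1))), fun p _ f hf hn hD hi hp => ?_⟩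
  set ι := algebraMap (ZMod p) (AlgebraicClosure (ZMod p))
  have hf' := hf.map (mapRingHom ι)
  have hn' : (f.map (mapRingHom ι)).natDegree = n + 1 := by rw [hf.natDegree_map, hn]
  have := AdjoinRoot.isDomain_of_prime hi.prime
  set c := cvOf _ hf' n D hn' fun k => by
    rw [coeff_map]; exact natDegree_map_le.trans (hD k)
  have hy : c.fy ≠ 0 := by
    have h1 : c.fy = AdjoinRoot.mk _ (derivative (f.map (mapRingHom ι))) := by
      rw [← AdjoinRoot.aeval_eq, aeval_eq_sum_range' (n := n + 1)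
        ((natDegree_derivative_le _).trans_lt (by omega)), Cv.fy, ev]
      refine Finset.sum_congr rfl fun k _ => ?_
      rw [coeff_derivative, Algebra.smul_def, dy, mul_comm (C _), map_natCast, Nat.cast_succ]
      congr 1
      exact DFunLike.congr_fun (algHom_ext (by simp [c, cvOf]) :
        aeval c.x = AdjoinRoot.ofAlgHom (AlgebraicClosure (ZMod p)) (f.map (mapRingHom ι))) _
    rw [h1]
    refine AdjoinRoot.mk_ne_zero_of_natDegree_lt hf' (fun e => ?_)
      ((natDegree_derivative_le _).trans_lt (by omega))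
    have h2 := congrArg (coeff · n) e
    simp only [coeff_derivative, ← hn', hf'.coeff_natDegree, one_mul, coeff_zero] at h2
    have h3 : ((n + 1 : ℕ) : (AlgebraicClosure (ZMod p))[X]) = 0 := by exact_mod_cast h2
    have h4 := Nat.le_of_dvd (by omega) ((CharP.cast_eq_zero_iff _ p _).1 h3)
    have h5 : n + 1 ≤ (m + D * n + D * n + 1) * (n + 1) := Nat.le_mul_of_pos_left _ (by omega)
    omega
  have key := c.count ι (fun k => by
    show ((f.map (mapRingHom ι)).coeff k).map _ = (f.map (mapRingHom ι)).coeff k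
    rw [coeff_map, coe_mapRingHom, Polynomial.map_map, Subsingleton.elim (RingHom.comp _ _) ι]) hy m J M
    (by omega) (by show (m + D * n + D * n + 1) * (n + 1) < p; omega) (by
      show M * n * (m + D * n + M * (D * n + D * (n + 2)) + J + D + 1) < J * (n + 1) * m
      have e1 : J * (n + 1) = M * n + (n + 1) := by rw [hJ, hM]; ring
      have e2 : m + D * n + M * (D * n + D * (n + 2)) + J + D + 1 = m + K := by omega
      rw [e1, e2, mul_add, add_mul]
      nlinarith)
  have e : Nat.card {ab : ZMod p × ZMod p // ev c.g (c.n + 2) (ι ab.1) (ι ab.2) = 0} =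
      Nat.card {ab : ZMod p × ZMod p // f.evalEval ab.1 ab.2 = 0} :=
    Nat.card_congr (Equiv.subtypeEquivRight fun ab => by
      show ev (f.map (mapRingHom ι)).coeff (n + 2) _ _ = 0 ↔ _
      rw [ev_coeff (by omega), ← map_eq_zero_iff ι ι.injective, ← map_mapRingHom_evalEval,
        ← eval₂_evalRingHom]
      rfl)
  rw [e] at key
  change p * (n + 1) * M ≤ ((n + 2) * ((D * (n + 2) + D * n + 1) * (n + 1)) + _) * M +
    (m + D * n + p * (J + D * n) + D * n + 1) * (n + 1) at key
  generalize Nat.card {ab : ZMod p × ZMod p // f.evalEval ab.1 ab.2 = 0} = N at key ⊢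
  generalize (n + 2) * ((D * (n + 2) + D * n + 1) * (n + 1)) = c₁ at key ⊢
  have h2 : p * (n + 1) * s ≤ (c₁ + N) * s + (m + D * n + p * (J + D * n) + D * n + 1) := by
    refine Nat.le_of_mul_le_mul_right ?_ (Nat.succ_pos n)
    rw [hM] at key
    nlinarith
  rw [hJ] at h2
  nlinarith [Nat.zero_le ((m + D * n + D * n + 1) * n)]

end Pool.Agent.Lib.MP_78c6b1_al.Weil
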