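import Mathlib

/-!
An uncountable algebraic set contains a birational image of an absolutely irreducible plane curve.
-/

namespace Pool.Agent.Lib.MP_78c6b1_al.Weil

open Polynomial Finset
open scoped Polynomial.Bivariate IntermediateField

lemma evalEval_map {k K : Type} [CommRing k] [CommRing K] [Algebra k K] (G : k[X][Y]) (x y : K) :
    (G.map (mapRingHom (algebraMap k K))).evalEval x y = aevalAeval x y G := by
  induction G using Polynomial.induction_on' with
  | add p q hp hq => simp only [Polynomial.map_add, evalEval_add, map_add, hp, hq]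
  | monomial n a => simp [← C_mul_X_pow_eq_monomial, evalEval_C, eval_map_algebraMap]

section Irr

variable {k K L : Type} [Field k] [Field K] [Field L] [Algebra k K] [Algebra K L] [Algebra k L]
  [IsScalarTower k K L] [CharZero K]

lemma exists_fun (hk : ∀ a : K, IsIntegral k a → a ∈ Set.range (algebraMap k K)) (T : Finset L)
    (hT : ∀ c ∈ T, IsIntegral k c) :
    ∃ l : L →ₗ[K] K, l 1 ≠ 0 ∧ ∀ c ∈ T, l c ∈ Set.range (algebraMap k K) := by
  have : FiniteDimensional K (IntermediateField.adjoin K (T : Set L)) :=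
    IntermediateField.finiteDimensional_adjoin fun c hc => (hT c hc).tower_top
  obtain ⟨l, hl⟩ := LinearMap.exists_extend (p := (IntermediateField.adjoin K (T : Set L)).toSubmodule)
    (Algebra.trace K (IntermediateField.adjoin K (T : Set L)))
  have h : ∀ c : IntermediateField.adjoin K (T : Set L), l c = Algebra.trace K _ c := fun c =>
    DFunLike.congr_fun hl c
  refine ⟨l, ?_, fun c hc => ?_⟩
  · have h1 := Algebra.trace_algebraMap (S := IntermediateField.adjoin K (T : Set L)) (1 : K)
    rw [map_one, ← h 1, nsmul_one] at h1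
    exact fun e => (Nat.cast_ne_zero.2 Module.finrank_pos.ne') (h1.symm.trans e)
  · rw [h ⟨c, IntermediateField.subset_adjoin _ _ hc⟩]
    refine hk _ (Algebra.isIntegral_trace ?_)
    exact (isIntegral_algHom_iff ((IntermediateField.val _).restrictScalars k)
      Subtype.val_injective).1 (hT c hc)

lemma not_root (hk : ∀ a : K, IsIntegral k a → a ∈ Set.range (algebraMap k K)) {u v : K}
    {f : k[X][Y]} (h : ∀ G, aevalAeval u v G = 0 → f ∣ G) {A : L[X][Y]}
    (hA : A.Monic) (hi : ∀ j l, IsIntegral k ((A.coeff j).coeff l)) (hd : A.natDegree < f.natDegree) :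
    A.evalEval (algebraMap K L u) (algebraMap K L v) ≠ 0 := by
  classical
  intro e
  obtain ⟨lam, h1, h2⟩ := exists_fun hk ((range (A.natDegree + 1)).biUnion fun j =>
    (A.coeff j).support.image (A.coeff j).coeff) (by
      simp only [mem_biUnion, mem_image]
      rintro _ ⟨j, -, l, -, rfl⟩
      exact hi j l)
  choose! t ht using h2
  have ht' : ∀ j ∈ range (A.natDegree + 1), ∀ l ∈ (A.coeff j).support,
      algebraMap k K (t ((A.coeff j).coeff l)) = lam ((A.coeff j).coeff l) := fun j hj l hl =>
    ht _ (mem_biUnion.2 ⟨j, hj, mem_image_of_mem _ hl⟩)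
  set G : k[X][Y] := ∑ j ∈ range (A.natDegree + 1),
    monomial j (∑ l ∈ (A.coeff j).support, monomial l (t ((A.coeff j).coeff l))) with hG
  have h3 : aevalAeval u v G = 0 := by
    rw [← eval₂_evalRingHom, eval₂_eq_sum_range] at e
    have := congrArg lam e
    rw [map_zero, map_sum] at this
    rw [← this, hG, map_sum]
    refine sum_congr rfl fun j hj => ?_
    rw [coe_evalRingHom, eval_eq_sum, Polynomial.sum, sum_mul, map_sum, map_sum, map_sum]
    refine sum_congr rfl fun l hl => ?_
    rw [mul_assoc, ← map_pow, ← map_pow, ← map_mul, mul_comm, ← Algebra.smul_def, map_smul,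
      ← ht' j hj l hl]
    simp only [← C_mul_X_pow_eq_monomial, map_mul, map_pow, aevalAeval_C, aevalAeval_Y, aeval_C,
      aeval_X, smul_eq_mul]
    ring
  have h4 : G = 0 := eq_zero_of_dvd_of_natDegree_lt (h G h3) (lt_of_le_of_lt
    (natDegree_sum_le_of_forall_le _ _ fun j hj =>
      (natDegree_monomial_le _).trans (Nat.lt_succ_iff.1 (mem_range.1 hj))) hd)
  have h5 := congrArg (fun G => (coeff G A.natDegree).coeff 0) h4
  have h6 := ht' A.natDegree (by simp) 0 (by simp [hA.leadingCoeff])
  have h7 : (1 : L[X]).support = {0} := by rw [← C_1, support_C one_ne_zero]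
  simp only [hG, finsetSum_coeff, coeff_monomial, sum_ite_eq', mem_range, Nat.lt_succ_self,
    if_true, hA.coeff_natDegree, h7, sum_singleton, coeff_zero] at h5 h6
  rw [h5, map_zero, coeff_one_zero] at h6
  exact h1 h6.symm

attribute [local instance] Polynomial.algebra in
lemma irreducible_map (hk : ∀ a : K, IsIntegral k a → a ∈ Set.range (algebraMap k K)) {u v : K}
    {f : k[X][Y]} (hf : f.Monic) (h0 : 0 < f.natDegree) (h : ∀ G, aevalAeval u v G = 0 ↔ f ∣ G) :
    Irreducible (f.map (mapRingHom (algebraMap k L))) := by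
  have hf' := hf.map (mapRingHom (algebraMap k L))
  have hn := hf.natDegree_map (mapRingHom (algebraMap k L))
  refine hf'.irreducible_iff_natDegree.2 ⟨fun e => by simp [e] at hn; omega, fun A B hA hB e => ?_⟩
  by_contra! hne
  have h1 := hA.natDegree_mul hB
  rw [e, hn] at h1
  have h2 : (A * B).evalEval (algebraMap K L u) (algebraMap K L v) = 0 := by
    rw [e, IsScalarTower.algebraMap_eq k K L, ← mapRingHom_comp, ← Polynomial.map_map,
      map_mapRingHom_evalEval, evalEval_map, (h f).2 dvd_rfl, map_zero]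
  rw [evalEval_mul] at h2
  rcases mul_eq_zero.1 h2 with h2 | h2
  · exact not_root hk (fun G => (h G).1) hA (fun j => isIntegral_iff_isIntegral_coeff.1
      (isIntegral_coeff_of_dvd f A hf hA ⟨B, e.symm⟩ j)) (by omega) h2
  · exact not_root hk (fun G => (h G).1) hB (fun j => isIntegral_iff_isIntegral_coeff.1
      (isIntegral_coeff_of_dvd f B hf hB ⟨A, by rw [mul_comm]; exact e.symm⟩ j)) (by omega) h2

end Irr

section Param

variable {k K σ : Type} [Field k] [Field K] [Algebra k K]

lemma exists_gen [CharZero k] [Finite σ] [Algebra k[X] K] [IsScalarTower k k[X] K]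
    [FaithfulSMul k[X] K] [Algebra.IsAlgebraic k[X] K] (z : σ → K) :
    ∃ v ∈ Algebra.adjoin k[X] (Set.range z), IsIntegral k[X] v ∧
      ∀ j, ∃ t : k[X], t ≠ 0 ∧ ∃ G : k[X][Y], t • z j = aeval v G := by
  let := FractionRing.liftAlgebra k[X] K
  have := FractionRing.isScalarTower_liftAlgebra k[X] K
  have alg : ∀ a : K, IsAlgebraic (FractionRing k[X]) a := fun a =>
    (Algebra.IsAlgebraic.isAlgebraic a).extendScalars (IsFractionRing.injective k[X] _)
  have : FiniteDimensional (FractionRing k[X])
      (IntermediateField.adjoin (FractionRing k[X]) (Set.range z)) :=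
    IntermediateField.finiteDimensional_adjoin fun c _ => (alg c).isIntegral
  obtain ⟨α, hα⟩ := Field.exists_primitive_element (FractionRing k[X])
    (IntermediateField.adjoin (FractionRing k[X]) (Set.range z))
  have h1 := congrArg IntermediateField.lift hα
  rw [IntermediateField.lift_adjoin_simple, IntermediateField.lift_top] at h1
  have h2 : (α : K) ∈ Algebra.adjoin (FractionRing k[X]) (Set.range z) := by
    rw [← IntermediateField.adjoin_toSubalgebra_of_isAlgebraic fun x _ => alg x]
    exact α.2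
  obtain ⟨t, ht⟩ := multiple_mem_adjoin_of_mem_localization_adjoin (nonZeroDivisors k[X]) _ _ _ h2
  obtain ⟨c, hc, hi⟩ :=
    (Algebra.IsAlgebraic.isAlgebraic (R := k[X]) (t • (α : K))).exists_integral_multiple
  refine ⟨_, Subalgebra.smul_mem _ ht c, hi, fun j => ?_⟩
  have h3 : (α : K) ∈ (FractionRing k[X])⟮c • t • (α : K)⟯ := by
    have h4 : algebraMap k[X] (FractionRing k[X]) (c * t) ≠ 0 :=
      (map_ne_zero_iff _ (IsFractionRing.injective _ _)).2
        (mul_ne_zero hc (nonZeroDivisors.coe_ne_zero t))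
    have := IntermediateField.smul_mem _
      (IntermediateField.mem_adjoin_simple_self (FractionRing k[X]) (c • t • (α : K)))
      (x := (algebraMap k[X] (FractionRing k[X]) (c * t))⁻¹)
    rwa [Submonoid.smul_def, ← mul_smul c, ← algebraMap_smul (FractionRing k[X]) (c * t),
      inv_smul_smul₀ h4, algebraMap_smul, mul_smul] at this
  have h4 : z j ∈ Algebra.adjoin (FractionRing k[X]) {c • t • (α : K)} := by
    rw [← IntermediateField.adjoin_toSubalgebra_of_isAlgebraic fun x _ => alg x]
    exact IntermediateField.adjoin_simple_le_iff.2 h3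
      (h1.ge (IntermediateField.subset_adjoin _ _ ⟨j, rfl⟩))
  obtain ⟨s, hs⟩ := multiple_mem_adjoin_of_mem_localization_adjoin (nonZeroDivisors k[X]) _ _ _ h4
  rw [Algebra.adjoin_singleton_eq_range_aeval] at hs
  obtain ⟨G, hG⟩ := hs
  exact ⟨s, nonZeroDivisors.coe_ne_zero s, G, hG.symm⟩

lemma exists_model [CharZero k] [Fintype σ] (z : σ → K) (j₀ : σ) (hu : Transcendental k (z j₀))
    (ha : ∀ a : K, IsAlgebraic (Algebra.adjoin k {z j₀}) a) :
    ∃ (v : K) (f : k[X][Y]) (h : k[X]) (g : σ → k[X][Y]) (P : MvPolynomial σ k), f.Monic ∧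
      0 < f.natDegree ∧ (∀ G, aevalAeval (z j₀) v G = 0 ↔ f ∣ G) ∧ h ≠ 0 ∧
      (∀ j, z j = aevalAeval (z j₀) v (g j) / aeval (z j₀) h) ∧ MvPolynomial.aeval z P = v := by
  classical
  let : Algebra k[X] K := (aeval (z j₀) : k[X] →ₐ[k] K).toRingHom.toAlgebra
  have e : ∀ q : k[X], algebraMap k[X] K q = aeval (z j₀) q := fun _ => rfl
  have : IsScalarTower k k[X] K := .of_algebraMap_eq fun c => by simp [e]
  have inj : Function.Injective (algebraMap k[X] K) := transcendental_iff_injective.1 hu
  have : FaithfulSMul k[X] K := (faithfulSMul_iff_algebraMap_injective _ _).2 inj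
  have : Algebra.IsAlgebraic k[X] K := ⟨fun a =>
    (ha a).ringHom_of_comp_eq (algEquivOfTranscendental k _ hu).symm (RingHom.id K)
      (algEquivOfTranscendental k _ hu).symm.injective (RingHom.ext fun q => by
        obtain ⟨q, rfl⟩ := (algEquivOfTranscendental k _ hu).surjective q
        simp [e])⟩
  obtain ⟨v, h1, h2, h3⟩ := exists_gen (k := k) z
  choose t ht G hG using h3
  have e' : ∀ G : k[X][Y], aevalAeval (z j₀) v G = aeval v G := fun G => by
    induction G using Polynomial.induction_on' with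
    | add p q hp hq => simp only [map_add, hp, hq]
    | monomial n a => simp [← C_mul_X_pow_eq_monomial, e]
  have h4 : v ∈ Algebra.adjoin k (Set.range z) := by
    clear h2 hG e'
    induction h1 using Algebra.adjoin_induction with
    | mem x hx => exact Algebra.subset_adjoin hx
    | algebraMap q =>
      exact Algebra.adjoin_mono (Set.singleton_subset_iff.2 (Set.mem_range_self j₀))
        (aeval_mem_adjoin_singleton _ _)
    | add _ _ _ _ a b => exact add_mem a b
    | mul _ _ _ _ a b => exact mul_mem a b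
  rw [Algebra.adjoin_range_eq_range_aeval] at h4
  obtain ⟨P, hP⟩ := h4
  refine ⟨v, minpoly k[X] v, ∏ j, t j, fun j => C (∏ i ∈ univ.erase j, t i) * G j, P,
    minpoly.monic h2, minpoly.natDegree_pos h2,
    fun G => by rw [e', minpoly.isIntegrallyClosed_dvd_iff h2], prod_ne_zero_iff.2 fun j _ => ht j,
    fun j => ?_, hP⟩
  rw [eq_div_iff (by
    rw [← e, map_ne_zero_iff _ inj]; exact prod_ne_zero_iff.2 fun j _ => ht j), e', map_mul, ← hG,
    aeval_C, Algebra.smul_def, ← mul_prod_erase _ _ (mem_univ j), map_mul, e, e]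
  ring

lemma homog (h : k[X][Y]) (g : σ → k[X][Y]) (s : MvPolynomial σ k) :
    ∃ (N : ℕ) (G : k[X][Y]), ∀ τ : k[X][Y] →ₐ[k] K, τ h ≠ 0 →
      τ G = τ h ^ N * MvPolynomial.aeval (fun j => τ (g j) / τ h) s := by
  induction s using MvPolynomial.induction_on with
  | C a => exact ⟨0, algebraMap k _ a, fun τ _ => by rw [τ.commutes]; simp⟩
  | add p q hp hq =>
    obtain ⟨N, G, hp⟩ := hp
    obtain ⟨N', G', hq⟩ := hq
    exact ⟨N + N', G * h ^ N' + G' * h ^ N, fun τ hτ => by
      simp only [map_add, map_mul, map_pow, hp τ hτ, hq τ hτ]; ring⟩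
  | mul_X p j hp =>
    obtain ⟨N, G, hp⟩ := hp
    exact ⟨N + 1, G * g j, fun τ hτ => by
      simp only [map_mul, hp τ hτ, MvPolynomial.aeval_X]; field_simp; ring⟩

lemma spec {f h : k[X][Y]} {g : σ → k[X][Y]} {ε τ : k[X][Y] →ₐ[k] K} (h1 : ∀ G, ε G = 0 → f ∣ G)
    (h2 : τ f = 0) (h3 : ε h ≠ 0) (h4 : τ h ≠ 0) {s : MvPolynomial σ k} {G₀ : k[X][Y]}
    (e : MvPolynomial.aeval (fun j => ε (g j) / ε h) s = ε G₀) :
    MvPolynomial.aeval (fun j => τ (g j) / τ h) s = τ G₀ := by
  obtain ⟨N, G, hG⟩ := homog (K := K) h g s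
  obtain ⟨Q, hQ⟩ := h1 (G - h ^ N * G₀) (by rw [map_sub, hG ε h3, e, map_mul, map_pow, sub_self])
  have := congrArg τ hQ
  rw [map_sub, hG τ h4, map_mul, map_mul, map_pow, h2, zero_mul, sub_eq_zero] at this
  exact mul_left_cancel₀ (pow_ne_zero N h4) this

lemma exists_base {u : K} (hu : Transcendental k u) :
    ∃ (k' : Type) (_ : Field k') (_ : Algebra k' K) (_ : Algebra k k') (_ : IsScalarTower k k' K),
      Transcendental k' u ∧ (∀ a : K, IsIntegral k' a → a ∈ Set.range (algebraMap k' K)) ∧
      ∀ a : K, IsAlgebraic (Algebra.adjoin k' {u}) a := by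
  obtain ⟨t, ht, hb⟩ := exists_isTranscendenceBasis_superset (R := k) (s := {u})
    ((algebraicIndependent_singleton_iff (⟨u, rfl⟩ : ({u} : Set K))).2 hu)
  have h1 := IntermediateField.transcendental_adjoin_iff.2
    (hb.1.transcendental_adjoin (s := {⟨u, ht rfl⟩}ᶜ) (i := ⟨u, ht rfl⟩) (by simp))
  set k₁ := IntermediateField.adjoin k (((↑) : t → K) '' {⟨u, ht rfl⟩}ᶜ)
  have : IsScalarTower k (algebraicClosure k₁ K) K := .of_algebraMap_eq fun _ => rfl
  refine ⟨algebraicClosure k₁ K, inferInstance, inferInstance, inferInstance, inferInstance,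
    h1.algebraicClosure,
    fun a ha => ⟨⟨a, mem_algebraicClosure_iff'.2 (isIntegral_trans a ha)⟩, rfl⟩, fun a => ?_⟩
  have h2 : Algebra.adjoin k (Set.range ((↑) : t → K)) ≤
      (Algebra.adjoin (algebraicClosure k₁ K) {u}).restrictScalars k := by
    refine Algebra.adjoin_le ?_
    rintro _ ⟨b, rfl⟩
    rw [SetLike.mem_coe, Subalgebra.mem_restrictScalars]
    by_cases hb : b = ⟨u, ht rfl⟩
    · rw [hb]
      exact Algebra.self_mem_adjoin_singleton _ u
    · have h3 : (b : K) ∈ k₁ := IntermediateField.subset_adjoin _ _ ⟨b, hb, rfl⟩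
      have h4 : (b : K) ∈ algebraicClosure k₁ K := IntermediateField.algebraMap_mem _ (⟨b, h3⟩ : k₁)
      exact Subalgebra.algebraMap_mem _ (⟨b, h4⟩ : algebraicClosure k₁ K)
  exact (hb.isAlgebraic.isAlgebraic a).tower_top_of_subalgebra_le h2

end Param

/-- The data of a birational map from a plane curve into an algebraic set. -/
def Par {K σ ι : Type} [Field K] (S : ι → MvPolynomial σ K) (f : K[X][Y]) (h : K[X])
    (g : σ → K[X][Y]) (P Q : MvPolynomial σ K) (x y : K) : Prop :=
  f.evalEval x y = 0 → h.eval x ≠ 0 →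
    (∀ i, MvPolynomial.eval (fun j => (g j).evalEval x y / h.eval x) (S i) = 0) ∧
    MvPolynomial.eval (fun j => (g j).evalEval x y / h.eval x) P = x ∧
    MvPolynomial.eval (fun j => (g j).evalEval x y / h.eval x) Q = y

theorem curve_param {K L σ ι : Type} [Field K] [CharZero K] [Field L] [Algebra K L] [Fintype σ]
    [Finite ι] (S : ι → MvPolynomial σ K)
    (hS : ¬ {z : σ → K | ∀ i, MvPolynomial.eval z (S i) = 0}.Countable) :
    ∃ (f : K[X][Y]) (h : K[X]) (g : σ → K[X][Y]) (P Q : MvPolynomial σ K), f.Monic ∧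
      0 < f.natDegree ∧ Irreducible (f.map (mapRingHom (algebraMap K L))) ∧ h ≠ 0 ∧
      ∀ x y, Par S f h g P Q x y := by
  set T : Set K := ⋃ i, (S i).coeffs
  have hT : T.Finite := Set.finite_iUnion fun i => Finset.finite_toSet _
  have : Countable (Subfield.closure T) := by
    rw [← Cardinal.mk_le_aleph0_iff]
    exact (Subfield.cardinalMk_closure_le_max T).trans (max_le hT.lt_aleph0.le le_rfl)
  obtain ⟨z, hz, hz'⟩ := Set.not_subset.1 fun h => hS
    ((Set.countable_univ_pi fun _ : σ => Algebraic.countable (Subfield.closure T) K).mono h)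
  obtain ⟨j₀, hj⟩ : ∃ j, Transcendental (Subfield.closure T) (z j) := by
    by_contra! h
    exact hz' fun j _ => not_not.1 (h j)
  obtain ⟨k, _, _, _, _, h1, h2, h3⟩ := exists_base hj
  have : CharZero k := (algebraMap k K).charZero
  let : Algebra k L := ((algebraMap K L).comp (algebraMap k K)).toAlgebra
  have : IsScalarTower k K L := .of_algebraMap_eq fun _ => rfl
  obtain ⟨v, f, h, g, P, a1, a2, a3, a4, a5, a6⟩ := exists_model z j₀ h1 h3
  have hz2 : z = fun j => aevalAeval (z j₀) v (g j) / aevalAeval (z j₀) v (C h) :=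
    funext fun j => by rw [aevalAeval_C]; exact a5 j
  have hh : aevalAeval (z j₀) v (C h) ≠ 0 := by
    rw [aevalAeval_C]; exact fun e => a4 (transcendental_iff.1 h1 h e)
  refine ⟨f.map (mapRingHom (algebraMap k K)), h.map (algebraMap k K),
    fun j => (g j).map (mapRingHom (algebraMap k K)), MvPolynomial.X j₀,
    P.map (algebraMap k K), a1.map _, by rwa [a1.natDegree_map], ?_,
    (Polynomial.map_ne_zero_iff (algebraMap k K).injective).2 a4, fun x y b1 b2 => ?_⟩
  · rw [Polynomial.map_map, mapRingHom_comp]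
    exact irreducible_map h2 a1 a2 a3
  · simp only [evalEval_map, eval_map_algebraMap, ← aevalAeval_C x y] at b1 b2 ⊢
    have key := fun s G₀ => spec (g := g) (fun G => (a3 G).1) b1 hh b2 (s := s) (G₀ := G₀)
    rw [← hz2] at key
    refine ⟨fun i => ?_, by simpa using key (MvPolynomial.X j₀) (C X) (by simp), ?_⟩
    · obtain ⟨s, hs⟩ := MvPolynomial.mem_range_map_iff_coeffs_subset.2
        (show ((S i).coeffs : Set K) ⊆ Set.range (algebraMap (Subfield.closure T) K) from
          fun c hc => ⟨⟨c, Subfield.subset_closure (Set.mem_iUnion.2 ⟨i, hc⟩)⟩, rfl⟩)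
      rw [IsScalarTower.algebraMap_eq _ k K, ← MvPolynomial.map_map] at hs
      have := hz i
      rw [← hs, MvPolynomial.eval_map, ← MvPolynomial.aeval_def] at this ⊢
      exact (key _ 0 (this.trans (map_zero _).symm)).trans (map_zero _)
    · rw [MvPolynomial.eval_map, ← MvPolynomial.aeval_def]
      exact (key P Y (a6.trans (aevalAeval_Y _ _).symm)).trans (aevalAeval_Y _ _)

end Pool.Agent.Lib.MP_78c6b1_al.Weil
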