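import Mathlib

/-!
Coordinate rings of plane curves: degree filtration and the count of zeros with multiplicity.
-/

namespace Pool.Agent.Lib.MP_78c6b1_al.Weil

open Polynomial Module Finset

/-- The value of `∑ g k (a) b ^ k`. -/
noncomputable def ev {E A : Type} [Field E] [CommRing A] [Algebra E A] (g : ℕ → E[X]) (N : ℕ)
    (a b : A) : A := ∑ k ∈ range N, aeval a (g k) * b ^ k

lemma map_ev {E A B : Type} [Field E] [CommRing A] [Algebra E A] [CommRing B] [Algebra E B]
    (φ : A →ₐ[E] B) (g : ℕ → E[X]) (N : ℕ) (a b : A) : φ (ev g N a b) = ev g N (φ a) (φ b) := by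
  simp [ev, aeval_algHom_apply]

/-- The coordinate ring of a plane curve that is monic in the second variable. -/
structure Cv (E R : Type) [Field E] [CommRing R] [Algebra E R] where
  x : R
  y : R
  n : ℕ
  D : ℕ
  g : ℕ → E[X]
  hD : ∀ k, (g k).natDegree ≤ D
  top : g (n + 1) = 1
  rel : ev g (n + 2) x y = 0
  B : Basis (ℕ × Fin (n + 1)) E R
  hB : ∀ ij, B ij = x ^ ij.1 * y ^ (ij.2 : ℕ)
  lift : ∀ {A : Type} [CommRing A] [Algebra E A] (a b : A), ev g (n + 2) a b = 0 →
    ∃ φ : R →ₐ[E] A, φ x = a ∧ φ y = b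

namespace Cv

variable {E R : Type} [Field E] [CommRing R] [Algebra E R] (c : Cv E R)

/-- The weighted degree filtration. -/
def V (m : ℕ) : Submodule E R :=
  Submodule.span E {r | ∃ i j, i + c.D * j ≤ m ∧ r = c.x ^ i * c.y ^ j}

/-- The filtration by the degree in the first variable. -/
def U (m : ℕ) : Submodule E R :=
  Submodule.span E (Set.range fun ij : Fin m × Fin (c.n + 1) => c.B (ij.1, ij.2))

lemma mono_mem {i j m : ℕ} (h : i + c.D * j ≤ m) : c.x ^ i * c.y ^ j ∈ c.V m :=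
  Submodule.subset_span ⟨i, j, h, rfl⟩

lemma V_mono {m m' : ℕ} (h : m ≤ m') : c.V m ≤ c.V m' :=
  Submodule.span_mono fun _ ⟨i, j, h', e⟩ => ⟨i, j, h'.trans h, e⟩

variable {c} in
lemma V_mul {m m' : ℕ} {a b : R} (ha : a ∈ c.V m) (hb : b ∈ c.V m') : a * b ∈ c.V (m + m') := by
  have : c.V m * c.V m' ≤ c.V (m + m') := by
    rw [V, V, Submodule.span_mul_span]
    refine Submodule.span_le.2 ?_
    rintro _ ⟨_, ⟨i, j, h, rfl⟩, _, ⟨i', j', h', rfl⟩, rfl⟩
    have := c.mono_mem (i := i + i') (j := j + j') (m := m + m') (by rw [mul_add]; omega)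
    rwa [pow_add, pow_add, mul_mul_mul_comm] at this
  exact this (Submodule.mul_mem_mul ha hb)

lemma x_mem (i : ℕ) : c.x ^ i ∈ c.V i := by simpa using c.mono_mem (i := i) (j := 0) (m := i) (by simp)

lemma y_mem (j : ℕ) : c.y ^ j ∈ c.V (c.D * j) := by
  simpa using c.mono_mem (i := 0) (j := j) (m := c.D * j) (by simp)

lemma aeval_mem {h : E[X]} {m : ℕ} (hm : h.natDegree ≤ m) : aeval c.x h ∈ c.V m := by
  rw [aeval_eq_sum_range]
  exact sum_mem fun i hi => Submodule.smul_mem _ _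
    (c.V_mono (by have := mem_range.1 hi; omega) (c.x_mem i))

lemma ev_mem {h : ℕ → E[X]} (hm : ∀ k, (h k).natDegree ≤ c.D) (N : ℕ) :
    ev h N c.x c.y ∈ c.V (c.D * N) :=
  sum_mem fun k hk => c.V_mono (by have := mem_range.1 hk; nlinarith)
    (V_mul (c.aeval_mem (hm k)) (c.y_mem k))

lemma U_le (m : ℕ) : c.U m ≤ c.V (m + c.D * c.n) := by
  refine Submodule.span_le.2 ?_
  rintro _ ⟨⟨i, j⟩, rfl⟩
  simp only [c.hB]
  exact c.mono_mem (add_le_add i.2.le (Nat.mul_le_mul_left _ (Nat.lt_succ_iff.1 j.2)))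

lemma V_le (m : ℕ) : c.V m ≤ c.U (m + 1) := by
  have key : ∀ j i, i + c.D * j ≤ m → c.x ^ i * c.y ^ j ∈ c.U (m + 1) := by
    intro j
    induction j using Nat.strong_induction_on with
    | _ j ih =>
    intro i h
    by_cases hj : j < c.n + 1
    · exact Submodule.subset_span ⟨(⟨i, by omega⟩, ⟨j, hj⟩), c.hB _⟩
    obtain ⟨t, rfl⟩ : ∃ t, j = c.n + 1 + t := ⟨j - (c.n + 1), by omega⟩
    have h1 := c.rel
    rw [ev, sum_range_succ, c.top, map_one, one_mul, add_eq_zero_iff_neg_eq] at h1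
    rw [pow_add, ← h1, neg_mul, mul_neg, sum_mul, mul_sum]
    refine neg_mem (sum_mem fun k hk => ?_)
    have hk := mem_range.1 hk
    rw [aeval_eq_sum_range, sum_mul, sum_mul, mul_sum]
    refine sum_mem fun l hl => ?_
    have hl := mem_range.1 hl
    have h2 := c.hD k
    have h3 := ih (k + t) (by omega) (i + l) (by nlinarith)
    have e : c.x ^ i * ((c.g k).coeff l • c.x ^ l * c.y ^ k * c.y ^ t) =
        (c.g k).coeff l • (c.x ^ (i + l) * c.y ^ (k + t)) := by
      simp only [Algebra.smul_def]; ring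
    exact e ▸ Submodule.smul_mem _ _ h3
  refine Submodule.span_le.2 ?_
  rintro _ ⟨i, j, h, rfl⟩
  exact key j i h

instance (m : ℕ) : Module.Finite E (c.U m) := Module.Finite.span_of_finite _ (Set.finite_range _)

lemma finrank_U (m : ℕ) : finrank E (c.U m) = m * (c.n + 1) := by
  rw [U, finrank_span_eq_card]
  · simp
  · exact c.B.linearIndependent.comp (fun ij : Fin m × Fin (c.n + 1) => ((ij.1 : ℕ), ij.2))
      fun _ _ h => Prod.ext (Fin.ext (Prod.ext_iff.1 h).1) (Prod.ext_iff.1 h).2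

lemma exists_V (r : R) : ∃ m, r ∈ c.V m := by
  have : r ∈ Submodule.span E (Set.range c.B) := c.B.span_eq ▸ Submodule.mem_top
  induction this using Submodule.span_induction with
  | mem _ h =>
    obtain ⟨ij, rfl⟩ := h
    exact ⟨_, c.hB ij ▸ c.mono_mem le_rfl⟩
  | zero => exact ⟨0, zero_mem _⟩
  | add a b _ _ ha hb =>
    obtain ⟨m, ha⟩ := ha
    obtain ⟨m', hb⟩ := hb
    exact ⟨m + m', add_mem (c.V_mono (by omega) ha) (c.V_mono (by omega) hb)⟩
  | smul t a _ ha =>
    obtain ⟨m, ha⟩ := ha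
    exact ⟨m, Submodule.smul_mem _ _ ha⟩

variable [IsDomain R]

/-- The codimension of a principal ideal. -/
lemma codim_le {W : Type} [AddCommGroup W] [Module E W] [Module.Finite E W] (Λ : R →ₗ[E] W)
    (hΛ : Function.Surjective Λ) {r : R} {m : ℕ} (h0 : r ≠ 0) (hr : r ∈ c.V m)
    (h : ∀ a, Λ (r * a) = 0) : finrank E W ≤ (m + c.D * c.n + 1) * (c.n + 1) := by
  choose s hs using fun i => hΛ (finBasis E W i)
  choose t ht using fun i => c.exists_V (s i)
  set N := ∑ i, t i + 1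
  have hN : ∀ i, s i ∈ c.U (N + (m + c.D * c.n + 1)) := fun i =>
    c.V_le (N + (m + c.D * c.n)) (c.V_mono (by
      have : t i ≤ ∑ i, t i := single_le_sum (fun _ _ => Nat.zero_le _) (mem_univ i)
      omega) (ht i))
  have h1 := LinearMap.finrank_range_add_finrank_ker (Λ.domRestrict (c.U (N + (m + c.D * c.n + 1))))
  have h2 : LinearMap.range (Λ.domRestrict (c.U (N + (m + c.D * c.n + 1)))) = ⊤ := by
    rw [eq_top_iff, ← (finBasis E W).span_eq, Submodule.span_le]
    rintro _ ⟨i, rfl⟩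
    exact ⟨⟨s i, hN i⟩, hs i⟩
  have h3 : ∀ a : c.U N, r * a ∈ c.U (N + (m + c.D * c.n + 1)) := fun a =>
    c.V_le (N + (m + c.D * c.n)) (c.V_mono (by omega) (V_mul hr (c.U_le N a.2)))
  let L : c.U N →ₗ[E] LinearMap.ker (Λ.domRestrict (c.U (N + (m + c.D * c.n + 1)))) :=
    (((LinearMap.mulLeft E r).domRestrict (c.U N)).codRestrict _ h3).codRestrict _ fun a => h a
  have h4 := LinearMap.finrank_le_finrank_of_injective (f := L) fun a b e =>
    Subtype.ext (mul_left_cancel₀ h0 (congrArg (fun z => z.1.1) e))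
  rw [h2, finrank_top, finrank_U, add_mul] at h1
  rw [finrank_U] at h4
  omega

omit [IsDomain R] in
lemma crt {ι : Type} [Finite ι] (ψ : ι → R →ₐ[E] E)
    (hi : Function.Injective fun i => (ψ i c.x, ψ i c.y)) (I : ι → Ideal R) (M : ℕ)
    (hI : ∀ i t, ψ i t = 0 → t ^ M ∈ I i) (s : ι → R) : ∃ r, ∀ i, r - s i ∈ I i := by
  refine Ideal.exists_forall_sub_mem_ideal (fun i j hij => ?_) s
  obtain ⟨t, ht⟩ : ∃ t, ψ i t ≠ ψ j t := by
    by_contra! h
    exact hij (hi (Prod.ext (h _) (h _)))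
  have h1 : IsCoprime (t - algebraMap E R (ψ i t)) (t - algebraMap E R (ψ j t)) := by
    refine ⟨algebraMap E R (ψ j t - ψ i t)⁻¹, -algebraMap E R (ψ j t - ψ i t)⁻¹, ?_⟩
    rw [neg_mul, ← sub_eq_add_neg, ← mul_sub, sub_sub_sub_cancel_left, ← map_sub, ← map_mul,
      inv_mul_cancel₀ (sub_ne_zero.2 ht.symm), map_one]
  obtain ⟨u, v, e⟩ := h1.pow (m := M) (n := M)
  exact Ideal.isCoprime_iff_exists.2 ⟨_, Ideal.mul_mem_left _ u (hI i _ (by simp)), _,
    Ideal.mul_mem_left _ v (hI j _ (by simp)), e⟩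

/-- The number of zeros of a function. -/
lemma zeros_le {ι : Type} [Fintype ι] (ψ : ι → R →ₐ[E] E)
    (hi : Function.Injective fun i => (ψ i c.x, ψ i c.y)) {r : R} {m : ℕ} (h0 : r ≠ 0)
    (hr : r ∈ c.V m) (h : ∀ i, ψ i r = 0) : Fintype.card ι ≤ (m + c.D * c.n + 1) * (c.n + 1) := by
  have := c.codim_le (LinearMap.pi fun i => (ψ i).toLinearMap) (fun w => ?_) h0 hr
    fun a => funext fun i => by simp [h]
  · simpa using this
  · obtain ⟨r, hr⟩ := c.crt ψ hi (fun i => RingHom.ker (ψ i)) 1 (fun i t h => by simpa using h)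
      fun i => algebraMap E R (w i)
    exact ⟨r, funext fun i => by simpa [sub_eq_zero] using hr i⟩

/-- The constant coefficient as an algebra map. -/
noncomputable def cc (E : Type) [Field E] : PowerSeries E →ₐ[E] E :=
  { PowerSeries.constantCoeff with commutes' := fun _ => PowerSeries.constantCoeff_C _ }

@[simp] lemma cc_apply (s : PowerSeries E) : cc E s = PowerSeries.constantCoeff s := rfl

/-- The number of zeros of a function, with multiplicity. -/
lemma mult_le {ι : Type} [Fintype ι] (φ : ι → R →ₐ[E] PowerSeries E) (a : ι → E)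
    (ha : ∀ i, φ i c.x = PowerSeries.C (a i) + PowerSeries.X)
    (hi : Function.Injective fun i => (cc E (φ i c.x), cc E (φ i c.y))) {r : R} {m M : ℕ}
    (h0 : r ≠ 0) (hr : r ∈ c.V m) (h : ∀ i, PowerSeries.X ^ M ∣ φ i r) :
    Fintype.card ι * M ≤ (m + c.D * c.n + 1) * (c.n + 1) := by
  have := c.codim_le (LinearMap.pi fun i => LinearMap.pi fun l : Fin M =>
    (PowerSeries.coeff l).comp (φ i).toLinearMap) (fun w => ?_) h0 hr
    fun a => funext fun i => funext fun l => by
      simpa using PowerSeries.X_pow_dvd_iff.1 ((h i).mul_right (φ i a)) l l.2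
  · simpa [finrank_pi_fintype] using this
  · obtain ⟨r, hr⟩ := c.crt (fun i => (cc E).comp (φ i)) hi
      (fun i => (Ideal.span {PowerSeries.X ^ M}).comap (φ i)) M (fun i t h => by
        rw [Ideal.mem_comap, Ideal.mem_span_singleton, map_pow]
        exact pow_dvd_pow_of_dvd (PowerSeries.X_dvd_iff.2 h) M)
      fun i => ∑ l : Fin M, w i l • (c.x - algebraMap E R (a i)) ^ (l : ℕ)
    refine ⟨r, funext fun i => funext fun l => ?_⟩
    have h1 := PowerSeries.X_pow_dvd_iff.1
      (Ideal.mem_span_singleton.1 (Ideal.mem_comap.1 (hr i))) l l.2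
    have h2 : algebraMap E (PowerSeries E) (a i) = PowerSeries.C (a i) := rfl
    simpa [ha, h2, sub_eq_zero, PowerSeries.coeff_X_pow, Fin.val_inj] using h1

end Cv

end Pool.Agent.Lib.MP_78c6b1_al.Weil
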