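import Pool.Agent.Lib.MP_78c6b1_al.Weil.Zero

/-!
The gap theorem for point counts of locally closed sets over prime fields.
-/

namespace Pool.Agent.Lib.MP_78c6b1_al.Weil

open MvPolynomial Finset

lemma exists_fin_gen (σ : Type) [Finite σ] (d : ℕ) : ∃ r : ℕ, ∀ (K : Type) [Field K]
    (S : Set (MvPolynomial σ K)), (∀ s ∈ S, s.totalDegree ≤ d) → ∃ G : Fin r → MvPolynomial σ K,
      (∀ j, (G j).totalDegree ≤ d) ∧ ∀ z, (∀ s ∈ S, eval z s = 0) ↔ ∀ j, eval z (G j) = 0 := by
  refine ⟨Nat.card {m : σ →₀ ℕ | (m.sum fun _ e => e) ≤ d}, fun K _ S hS => ?_⟩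
  have h1 : Submodule.span K S ≤ restrictTotalDegree σ K d :=
    Submodule.span_le.2 fun s hs => (mem_restrictTotalDegree _ _ _).2 (hS s hs)
  have := Submodule.finiteDimensional_of_le h1
  have h2 := (Submodule.finrank_mono h1).trans_eq
    (Module.finrank_eq_nat_card_basis (basisRestrictSupport K _))
  obtain ⟨f, h3, h4, -⟩ := Submodule.exists_fun_fin_finrank_span_eq K S
  refine ⟨fun j => if h : j.1 < _ then f ⟨j, h⟩ else 0, fun j => ?_, fun z => ⟨fun h j => ?_,
    fun h s hs => ?_⟩⟩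
  · dsimp only
    split_ifs
    · exact hS _ (h3 _)
    · simp
  · dsimp only
    split_ifs
    · exact h _ (h3 _)
    · simp
  · have h5 : Submodule.span K (Set.range f) ≤ LinearMap.ker (aeval z).toLinearMap := by
      rw [Submodule.span_le]
      rintro _ ⟨j, rfl⟩
      simpa using h ⟨j, j.2.trans_le h2⟩
    simpa using h5 (h4.ge (Submodule.subset_span hs))

lemma second_moment {Ω X : Type} [Fintype Ω] [Nonempty Ω] [Fintype X] (E : X → Ω → Prop) {Q : ℝ}
    (hQ : 0 < Q) (h1 : ∀ x, Nat.card {w // E x w} * Q = Nat.card Ω)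
    (h2 : ∀ x y, x ≠ y → Nat.card {w // E x w ∧ E y w} * Q ^ 2 = Nat.card Ω) :
    ∃ w, (Nat.card {x // E x w} - Nat.card X / Q) ^ 2 ≤ Nat.card X / Q := by
  classical
  simp only [Nat.card_eq_fintype_card, Fintype.card_subtype, card_filter, Nat.cast_sum,
    Nat.cast_ite, Nat.cast_one, Nat.cast_zero] at h1 h2 ⊢
  set I : X → Ω → ℝ := fun x w => if E x w then 1 else 0
  have h3 : ∀ x, ∑ w, I x w = Fintype.card Ω / Q := fun x => eq_div_of_mul_eq hQ.ne' (h1 x)
  have h4 : ∀ x y, ∑ w, I x w * I y w ≤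
      (if x = y then Fintype.card Ω / Q else 0) + Fintype.card Ω / Q ^ 2 := fun x y => by
    split_ifs with h
    · rw [← h, ← h3 x]
      exact (sum_congr rfl fun w _ => by simp [I]).trans_le (le_add_of_nonneg_right (by positivity))
    · rw [zero_add, ← eq_div_of_mul_eq (by positivity) (h2 x y h)]
      exact (sum_congr rfl fun w _ => by simp only [I]; split_ifs <;> simp_all).le
  have h5 : ∑ w, (∑ x, I x w) ^ 2 ≤ Fintype.card X * (Fintype.card Ω / Q) +
      Fintype.card X * (Fintype.card X * (Fintype.card Ω / Q ^ 2)) := by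
    simp only [sq (∑ x, I x _), sum_mul_sum]
    rw [sum_comm]
    refine (sum_le_sum fun x _ => sum_comm.trans_le (sum_le_sum fun y _ => h4 x y)).trans_eq ?_
    simp [sum_add_distrib]
  have h6 : ∑ w, ∑ x, I x w = Fintype.card X * (Fintype.card Ω / Q) := by
    rw [sum_comm]
    simp [h3]
  obtain ⟨w, -, hw⟩ := exists_le_of_sum_le (s := univ) univ_nonempty
    (f := fun w => (∑ x, I x w - Fintype.card X / Q) ^ 2) (g := fun _ => Fintype.card X / Q) (by
      simp only [sub_sq, sum_add_distrib, sum_sub_distrib, ← sum_mul, ← mul_sum, h6, sum_const,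
        card_univ, nsmul_eq_mul]
      refine (add_le_add_left (sub_le_sub_right h5 _) _).trans_eq ?_
      field_simp
      ring)
  exact ⟨w, hw⟩

lemma card_ker_mul {A B : Type} [AddCommGroup A] [AddCommGroup B] (f : A →+ B)
    (hf : Function.Surjective f) : Nat.card {a // f a = 0} * Nat.card B = Nat.card A := by
  rw [← f.ker.card_mul_index, AddSubgroup.index_ker, AddMonoidHom.range_eq_top.2 hf,
    AddSubgroup.card_top]
  rfl

/-- Evaluation of a family of affine forms at a point. -/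
def aff {K σ : Type} [Field K] [Fintype σ] (k : ℕ) (x : σ → K) :
    (Fin k → K) × (Fin k → σ → K) →+ (Fin k → K) where
  toFun w i := w.1 i + ∑ j, w.2 i j * x j
  map_zero' := by ext; simp
  map_add' v w := by ext; simp [add_mul, sum_add_distrib]; ring

lemma exists_slice {K σ : Type} [Field K] [Fintype K] [Fintype σ] (k : ℕ) (Z : (σ → K) → Prop) :
    ∃ w, ((Nat.card {x // Z x ∧ aff k x w = 0} : ℝ) - Nat.card {x // Z x} / Nat.card K ^ k) ^ 2 ≤
      Nat.card {x // Z x} / Nat.card K ^ k := by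
  classical
  obtain ⟨w, hw⟩ := second_moment (fun (x : {x // Z x}) w => aff k x.1 w = 0)
    (Q := Nat.card K ^ k) (by have := Nat.card_pos (α := K); positivity) (fun x => by
      rw [← card_ker_mul (aff k x.1) fun u => ⟨(u, 0), by ext; simp [aff]⟩]
      simp) fun x y h => by
      obtain ⟨j, hj⟩ := Function.ne_iff.1 (mt Subtype.ext h)
      rw [← card_ker_mul ((aff k x.1).prod (aff k y.1)) fun u =>
        ⟨(fun i => u.1 i - (u.2 i - u.1 i) / (y.1 j - x.1 j) * x.1 j,
          fun i => Pi.single j ((u.2 i - u.1 i) / (y.1 j - x.1 j))), by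
          have := sub_ne_zero.2 hj.symm
          ext <;> simp [aff, Pi.single_apply]
          field_simp
          ring⟩]
      simp [sq]
  exact ⟨w, by rwa [Nat.card_congr (Equiv.subtypeSubtypeEquivSubtypeInter Z
    fun x => aff k x w = 0)] at hw⟩

theorem gap_closed (σ : Type) [Fintype σ] (d : ℕ) {ε : ℝ} (hε : 0 < ε) :
    ∃ C : ℕ, ∀ (p : ℕ) [Fact p.Prime] (S : Set (MvPolynomial σ (ZMod p))),
      (∀ s ∈ S, s.totalDegree ≤ d) → ∀ k : ℕ,
      Nat.card {z : σ → ZMod p // ∀ s ∈ S, eval z s = 0} ≤ C * p ^ k ∨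
      (1 - ε) * p ^ (k + 1) ≤ Nat.card {z : σ → ZMod p // ∀ s ∈ S, eval z s = 0} := by
  obtain ⟨r, hr⟩ := exists_fin_gen σ (d + 1)
  obtain ⟨C, hC⟩ := gap_zero σ (Fin r) (d + 1) (pow_pos hε 2)
  obtain ⟨B, hB⟩ := exists_nat_ge (1 / ε ^ 2)
  refine ⟨2 * C + 4 + B, fun p hp S hS k => ?_⟩
  obtain ⟨w, hw⟩ := exists_slice k fun z : σ → ZMod p => ∀ s ∈ S, eval z s = 0
  obtain ⟨G, h1, h2⟩ := hr _ (S ∪ Set.range fun i => MvPolynomial.C (w.1 i) +
    ∑ j, MvPolynomial.C (w.2 i j) * X j) (by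
      rintro s (hs | ⟨i, rfl⟩)
      · exact (hS s hs).trans d.le_succ
      · refine (totalDegree_add _ _).trans (max_le (by simp) (totalDegree_finsetSum_le fun j _ =>
          (totalDegree_mul _ _).trans (by simp))))
  have h3 := hC p G h1
  rw [← Nat.card_congr (Equiv.subtypeEquivRight (p := fun z => (∀ s ∈ S, eval z s = 0) ∧
    aff k z w = 0) fun z => by simp [← h2, or_imp, forall_and, aff, funext_iff])] at h3
  rw [Nat.card_zmod] at hw
  generalize Nat.card {x // (∀ s ∈ S, eval x s = 0) ∧ aff k x w = 0} = a at hw h3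
  have hQ : (0 : ℝ) < p ^ k := by have := hp.1.pos; positivity
  by_contra! hn
  obtain ⟨h4, h5⟩ := hn
  rify at h3 h4
  rw [← lt_div_iff₀ hQ] at h4
  rw [pow_succ', ← mul_assoc, ← div_lt_iff₀ hQ] at h5
  generalize (Nat.card {z : σ → ZMod p // ∀ s ∈ S, eval z s = 0} : ℝ) / p ^ k = μ at hw h4 h5
  rw [div_le_iff₀ (by positivity)] at hB
  have h6 : (0 : ℝ) ≤ C := C.cast_nonneg
  have h7 : (0 : ℝ) ≤ B := B.cast_nonneg
  rcases h3 with h3 | h3
  · have : (μ / 2) ^ 2 ≤ (μ - a) ^ 2 := pow_le_pow_left₀ (by linarith) (by linarith) 2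
    nlinarith
  · have h8 : ε * μ ≤ a - μ := by nlinarith
    have h9 := (pow_le_pow_left₀ (mul_nonneg hε.le (by linarith)) h8 2).trans hw
    have : μ * 1 < μ * (μ * ε ^ 2) := mul_lt_mul_of_pos_left
      (hB.trans_lt (mul_lt_mul_of_pos_right (by linarith) (by positivity))) (by linarith)
    nlinarith

lemma card_option {K σ : Type} [Field K] (S : Set (MvPolynomial σ K)) (t : MvPolynomial σ K) :
    Nat.card {z : Option σ → K // ∀ s ∈ insert (X none * rename some t - 1) (rename some '' S),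
      eval z s = 0} = Nat.card {x : σ → K // (∀ s ∈ S, eval x s = 0) ∧ eval x t ≠ 0} := by
  simp only [Set.forall_mem_insert, Set.forall_mem_image, map_sub, map_mul, eval_X, eval_rename,
    map_one, sub_eq_zero]
  refine Nat.card_congr ⟨fun z => ⟨z.1 ∘ some, z.2.2, right_ne_zero_of_mul_eq_one z.2.1⟩,
    fun x => ⟨fun o => o.elim (eval x.1 t)⁻¹ x.1, inv_mul_cancel₀ x.2.2, x.2.1⟩, fun z => ?_,
    fun x => rfl⟩
  ext (_ | j)
  · exact (eq_inv_of_mul_eq_one_left z.2.1).symm
  · rfl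

/-- The number of `ZMod p`-points of a difference of two algebraic sets of bounded degree is at most
`C p ^ k` or at least `(1 - ε) p ^ (k + 1)`. -/
theorem gap (n d : ℕ) (ε : ℝ) (h : 0 < ε) : ∃ C : ℕ, ∀ (p : ℕ) [Fact p.Prime]
    (S T : Set (MvPolynomial (Fin n) (ZMod p))), (∀ s ∈ S, s.totalDegree ≤ d) →
    (∀ t ∈ T, t.totalDegree ≤ d) → ∀ k : ℕ,
    Nat.card {x : Fin n → ZMod p // (∀ s ∈ S, eval x s = 0) ∧ ¬ ∀ t ∈ T, eval x t = 0} ≤ C * p ^ k ∨
    (1 - ε) * p ^ (k + 1) ≤
      Nat.card {x : Fin n → ZMod p // (∀ s ∈ S, eval x s = 0) ∧ ¬ ∀ t ∈ T, eval x t = 0} := by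
  classical
  obtain ⟨r, hr⟩ := exists_fin_gen (Fin n) d
  obtain ⟨C, hC⟩ := gap_closed (Option (Fin n)) (d + 1) h
  refine ⟨r * C, fun p hp S T hS hT k => ?_⟩
  obtain ⟨G, h1, h2⟩ := hr _ T hT
  have h3 := fun j => hC p (insert (X none * rename some (G j) - 1) (rename some '' S)) (by
    rintro s (rfl | ⟨s, hs, rfl⟩)
    · refine (totalDegree_sub _ _).trans (max_le ((totalDegree_mul _ _).trans ?_) (by simp))
      have := (totalDegree_rename_le some (G j)).trans (h1 j)
      rw [totalDegree_X]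
      omega
    · exact (totalDegree_rename_le _ _).trans ((hS s hs).trans d.le_succ)) k
  simp only [card_option, h2, not_forall] at h3 ⊢
  simp only [Nat.card_eq_fintype_card, Fintype.card_subtype] at h3 ⊢
  by_cases h4 : ∀ j, #{x | (∀ s ∈ S, eval x s = 0) ∧ eval x (G j) ≠ 0} ≤ C * p ^ k
  · refine Or.inl ((card_le_card fun x hx => ?_).trans ((card_biUnion_le (s := univ)).trans
      ((sum_le_sum fun j _ => h4 j).trans_eq (by simp [mul_assoc]))))
    simpa using hx
  · obtain ⟨j, hj⟩ := not_forall.1 h4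
    refine Or.inr (((h3 j).resolve_left hj).trans (Nat.cast_le.2 (card_le_card fun x hx => ?_)))
    simp only [mem_filter, mem_univ, true_and] at hx ⊢
    exact ⟨hx.1, j, hx.2⟩

end Pool.Agent.Lib.MP_78c6b1_al.Weil
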