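import Pool.Agent.Lib.MP_78c6b1_al.Weil.Branch

/-!
The auxiliary function of Stepanov and Schmidt.
-/

namespace Pool.Agent.Lib.MP_78c6b1_al.Weil

open Polynomial Module Finset

variable {E R : Type} [Field E] [CommRing R] [Algebra E R]

lemma tele {n : ℕ} (β : Fin (n + 1) → E) (γ : ℕ → E) (y t : E) (hγ : γ (n + 1) = 1)
    (h : ∀ k : Fin n, β k.castSucc - y * β k.succ - β (Fin.last n) * γ (k + 1) = 0) :
    (t - y) * ∑ k, β k * t ^ (k : ℕ) =
      β (Fin.last n) * (∑ k ∈ range (n + 2), γ k * t ^ k - γ 0) - y * β 0 := by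
  have h1 : ∑ k : Fin n, (β k.castSucc - y * β k.succ - β (Fin.last n) * γ (k + 1)) *
      t ^ ((k : ℕ) + 1) = 0 := sum_eq_zero fun k _ => by rw [h, zero_mul]
  have h2 := Fin.sum_univ_castSucc fun k => β k * t ^ (k : ℕ)
  have h3 := Fin.sum_univ_succ fun k => β k * t ^ (k : ℕ)
  have h4 : ∑ k : Fin n, (β k.castSucc - y * β k.succ - β (Fin.last n) * γ (k + 1)) *
      t ^ ((k : ℕ) + 1) = t * ∑ k : Fin n, β k.castSucc * t ^ (k.castSucc : ℕ) -
        y * ∑ k : Fin n, β k.succ * t ^ (k.succ : ℕ) -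
        β (Fin.last n) * ∑ k ∈ range n, γ (k + 1) * t ^ (k + 1) := by
    rw [← Fin.sum_univ_eq_sum_range (fun k => γ (k + 1) * t ^ (k + 1))]
    simp only [mul_sum, ← sum_sub_distrib, Fin.val_castSucc, Fin.val_succ]
    exact sum_congr rfl fun k _ => by ring
  rw [sum_range_succ, sum_range_succ', hγ]
  simp only [Fin.val_last, Fin.val_zero] at h2 h3
  linear_combination t * h2 - y * h3 - h4 + h1

lemma iter_sum {ι : Type} [Fintype ι] (u : PowerSeries E) (s K : ι → PowerSeries E)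
    (hK : ∀ i, PowerSeries.derivative E (K i) = 0) (l : ℕ) :
    (fun s => u * PowerSeries.derivative E s)^[l] (∑ i, s i * K i) =
      ∑ i, (fun s => u * PowerSeries.derivative E s)^[l] (s i) * K i := by
  induction l with
  | zero => rfl
  | succ l ih =>
    simp only [Function.iterate_succ_apply', ih, map_sum, Derivation.leibniz, hK, mul_sum]
    exact sum_congr rfl fun i _ => by simp only [smul_eq_mul]; ring

namespace Cv

variable (c : Cv E R)

/-- The coefficients of the derivatives of the auxiliary function. -/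
noncomputable def beta (m J l : ℕ) (k : Fin (c.n + 1)) : (Fin J × Fin (c.n + 1) → c.U m) →ₗ[E] R :=
  ∑ j : Fin J, (LinearMap.mulRight E (c.x ^ (j : ℕ))).comp
    ((c.Dop ^ l).comp ((c.U m).subtype.comp (LinearMap.proj (j, k))))

lemma beta_apply (m J l : ℕ) (k : Fin (c.n + 1)) (w : Fin J × Fin (c.n + 1) → c.U m) :
    c.beta m J l k w = ∑ j : Fin J, (c.Dop ^ l) (w (j, k)) * c.x ^ (j : ℕ) := by
  simp [beta]

lemma beta_mem (m J : ℕ) {l M : ℕ} (hl : l ≤ M) (k : Fin (c.n + 1))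
    (w : Fin J × Fin (c.n + 1) → c.U m) : c.beta m J l k w ∈ c.V (m + c.D * c.n + M * c.sh + J) := by
  rw [beta_apply]
  refine sum_mem fun j _ => c.V_mono ?_ (V_mul (c.iter_mem (c.U_le m (w (j, k)).2) l) (c.x_mem j))
  exact add_le_add (Nat.add_le_add_left (Nat.mul_le_mul_right _ hl) _) j.2.le

lemma exists_aux (m J M : ℕ)
    (h : M * c.n * (m + c.D * c.n + M * c.sh + J + c.D + 1) < J * (c.n + 1) * m) :
    ∃ w : Fin J × Fin (c.n + 1) → c.U m, w ≠ 0 ∧ ∀ l < M, ∀ k : Fin c.n,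
      c.beta m J l k.castSucc w - c.y * c.beta m J l k.succ w -
        c.beta m J l (Fin.last _) w * aeval c.x (c.g (k + 1)) = 0 := by
  let T : Fin M × Fin c.n → (Fin J × Fin (c.n + 1) → c.U m) →ₗ[E] R := fun lk =>
    c.beta m J lk.1 lk.2.castSucc - (LinearMap.mulLeft E c.y).comp (c.beta m J lk.1 lk.2.succ) -
      (LinearMap.mulRight E (aeval c.x (c.g (lk.2 + 1)))).comp (c.beta m J lk.1 (Fin.last _))
  have hT : ∀ lk w, T lk w ∈ c.U (m + c.D * c.n + M * c.sh + J + c.D + 1) := fun lk w => by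
    refine c.V_le _ (sub_mem (sub_mem (c.V_mono (by omega) (c.beta_mem m J lk.1.2.le _ w)) ?_)
      (V_mul (c.beta_mem m J lk.1.2.le _ w) (c.aeval_mem (c.hD _))))
    have := V_mul (c.y_mem 1) (c.beta_mem m J lk.1.2.le lk.2.succ w)
    rwa [pow_one, mul_one, add_comm] at this
  obtain ⟨w, hw, h0⟩ := (Submodule.ne_bot_iff _).1 (LinearMap.ker_ne_bot_of_finrank_lt
    (f := LinearMap.pi fun lk => (T lk).codRestrict _ (hT lk)) (by
      simp only [finrank_pi_fintype, finrank_U, sum_const, card_univ, Fintype.card_prod,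
        Fintype.card_fin, smul_eq_mul]
      rw [← mul_assoc, ← mul_assoc]
      exact Nat.mul_lt_mul_of_pos_right h (by omega)))
  exact ⟨w, h0, fun l hl k => congrArg Subtype.val (congrFun hw (⟨l, hl⟩, k))⟩

variable [IsDomain R] [IsAlgClosed E] {p : ℕ} [Fact p.Prime] [CharP E p]

/-- The upper bound for points whose second coordinate is moved by Frobenius. -/
theorem stepanov {ι : Type} [Fintype ι] (a b : ι → E) (hi : Function.Injective fun i => (a i, b i))
    (ha : ∀ i, a i ^ p = a i) (hb : ∀ i, b i ^ p ≠ b i) (h1 : ∀ i, ev c.g (c.n + 2) (a i) (b i) = 0)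
    (h2 : ∀ i, ev c.g (c.n + 2) (a i) (b i ^ p) = 0)
    (h3 : ∀ i, ev (dy c.g) (c.n + 1) (a i) (b i) ≠ 0) (m J M : ℕ) (hM : M ≤ p)
    (hm : (m + c.D * c.n + c.D * c.n + 1) * (c.n + 1) < p)
    (h : M * c.n * (m + c.D * c.n + M * c.sh + J + c.D + 1) < J * (c.n + 1) * m) :
    Fintype.card ι * M ≤ (m + c.D * c.n + p * (J + c.D * c.n) + c.D * c.n + 1) * (c.n + 1) := by
  rcases isEmpty_or_nonempty ι with _ | ⟨⟨i₀⟩⟩
  · simp
  choose φ e1 e2 using fun i => c.exists_branch (h1 i) (h3 i)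
  obtain ⟨w, h0, hw⟩ := c.exists_aux m J M h
  have e0 : ∀ i, cc E (φ i c.x) = a i := fun i => by simp [e1]
  refine c.mult_le φ a e1 (by simpa only [e0, e2] using hi)
    (r := ∑ jk : Fin J × Fin (c.n + 1), (w jk : R) * c.B (jk.1, jk.2) ^ p) (fun e => h0 ?_)
    (sum_mem fun jk _ => V_mul (c.U_le m (w jk).2) ?_) fun i => ?_
  · exact funext fun jk => Subtype.ext (nonvan (e1 i₀) hm (fun jk => c.U_le m (w jk).2)
      (c.B.linearIndependent.comp (fun jk : Fin J × Fin (c.n + 1) => ((jk.1 : ℕ), jk.2))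
        fun _ _ h => Prod.ext (Fin.ext (Prod.ext_iff.1 h).1) (Prod.ext_iff.1 h).2) e jk)
  · rw [c.hB, mul_pow, ← pow_mul, ← pow_mul]
    refine c.mono_mem ?_
    rw [← mul_assoc, ← add_mul, mul_comm]
    exact Nat.mul_le_mul_left _
      (add_le_add jk.1.2.le (Nat.mul_le_mul_left _ (Nat.lt_succ_iff.1 jk.2.2)))
  · refine X_pow_dvd_of_iter (u := φ i c.fy) (by
      rw [← cc_apply, fy, map_ev, map_ev, e0, e2]; exact h3 i) hM _ fun l hl => ?_
    simp only [map_sum, map_mul, map_pow]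
    rw [iter_sum _ _ _ fun jk => by simp [Derivation.leibniz_pow]]
    simp only [← map_iter (e1 i), ← cc_apply]
    let ψ := (cc E).comp (φ i)
    have f1 : ψ c.x = a i := e0 i
    have f2 : ψ c.y = b i := e2 i
    have key := fun t => tele (fun k => ψ (c.beta m J l k w)) (fun k => aeval (a i) (c.g k)) (b i) t
      (by simp [c.top]) fun k => by
        have := congrArg ψ (hw l hl k)
        simpa only [map_sub, map_mul, f2, ← aeval_algHom_apply, f1, map_zero] using this
    have k1 := key (b i)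
    have k2 := key (b i ^ p)
    have k3 := h1 i
    have k4 := h2 i
    rw [ev] at k3 k4
    rw [k3, sub_self, zero_mul] at k1
    rw [k4, ← k1, mul_eq_zero, sub_eq_zero, or_iff_right (hb i)] at k2
    rw [← k2, map_sum, Fintype.sum_prod_type_right]
    refine sum_congr rfl fun k _ => ?_
    rw [beta_apply, map_sum, sum_mul]
    refine sum_congr rfl fun j _ => ?_
    simp only [c.hB, map_mul, map_pow, e0, e2, f1, mul_pow, mul_assoc]
    rw [← pow_mul, mul_comm _ p, pow_mul, ha, ← pow_mul, mul_comm _ p, pow_mul]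
    rfl

end Cv

end Pool.Agent.Lib.MP_78c6b1_al.Weil
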