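import Pool.Agent.Lib.MP_78c6b1_al.Weil.Ultra
import Pool.Agent.Lib.MP_78c6b1_al.Weil.Count

/-!
An algebraic set of bounded degree over a prime field has boundedly many points or almost `p`.
-/

namespace Pool.Agent.Lib.MP_78c6b1_al.Weil

open Polynomial Filter Finset
open scoped Polynomial.Bivariate

lemma par_count {K σ ι : Type} [Field K] [Finite K] [Finite σ] {S : ι → MvPolynomial σ K}
    {f : K[X][Y]} {h : K[X]} {g : σ → K[X][Y]} {P Q : MvPolynomial σ K} (hf : f.Monic) (hh : h ≠ 0)
    (H : ∀ x y, Par S f h g P Q x y) :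
    Nat.card {ab : K × K // f.evalEval ab.1 ab.2 = 0} ≤
      Nat.card {z : σ → K // ∀ i, MvPolynomial.eval z (S i) = 0} + f.natDegree * h.natDegree := by
  classical
  have := Fintype.ofFinite K
  have := Fintype.ofFinite σ
  rw [Nat.card_eq_fintype_card, Fintype.card_subtype, Nat.card_eq_fintype_card,
    Fintype.card_subtype, ← card_filter_add_card_filter_not (fun ab : K × K => h.eval ab.1 ≠ 0)]
  refine add_le_add (card_le_card_of_injOn (fun ab j => (g j).evalEval ab.1 ab.2 / h.eval ab.1)
    (fun ab hab => ?_) fun ab hab cd hcd e => ?_) ?_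
  · simp only [coe_filter, mem_filter, mem_univ, true_and, Set.mem_ofPred_eq] at hab ⊢
    exact (H _ _ hab.1 hab.2).1
  · simp only [coe_filter, mem_filter, mem_univ, true_and, Set.mem_ofPred_eq] at hab hcd e
    have h1 := (H _ _ hab.1 hab.2).2
    have h2 := (H _ _ hcd.1 hcd.2).2
    rw [e] at h1
    exact Prod.ext (h1.1.symm.trans h2.1) (h1.2.symm.trans h2.2)
  · refine (card_le_mul_card_image_of_maps_to (f := Prod.fst) (t := h.roots.toFinset)
      (fun ab hab => ?_) f.natDegree fun a _ => ?_).trans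
      (Nat.mul_le_mul_left _ ((Multiset.toFinset_card_le _).trans (card_roots' h)))
    · simpa [hh] using (mem_filter.1 hab).2
    · refine (card_le_card_of_injOn (t := (f.map (evalRingHom a)).roots.toFinset) Prod.snd
        (fun ab hab => ?_) fun ab hab cd hcd e => ?_).trans ((Multiset.toFinset_card_le _).trans
          ((card_roots' _).trans natDegree_map_le))
      · simp only [coe_filter, mem_filter, mem_univ, true_and, Set.mem_ofPred_eq] at hab
        simp only [mem_coe, Multiset.mem_toFinset, mem_roots (hf.map _).ne_zero, IsRoot.def,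
          map_evalRingHom_eval, ← hab.2, hab.1.1]
      · simp only [coe_filter, mem_filter, mem_univ, true_and, Set.mem_ofPred_eq] at hab hcd
        exact Prod.ext (hab.2.trans hcd.2.symm) e

theorem gap_zero (σ ι : Type) [Fintype σ] [Finite ι] (d : ℕ) {ε : ℝ} (hε : 0 < ε) :
    ∃ C : ℕ, ∀ (p : ℕ) [Fact p.Prime] (S : ι → MvPolynomial σ (ZMod p)),
      (∀ j, (S j).totalDegree ≤ d) →
      Nat.card {z : σ → ZMod p // ∀ j, MvPolynomial.eval z (S j) = 0} ≤ C ∨
      (1 - ε) * p ≤ Nat.card {z : σ → ZMod p // ∀ j, MvPolynomial.eval z (S j) = 0} := by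
  by_contra! hn
  choose p hp S hd h1 h2 using hn
  have hpi : ∀ i, i < p i := fun i => by
    have : (i : ℝ) < _ := Nat.cast_lt.2 (h1 i)
    have h3 : (0 : ℝ) ≤ ε * p i := by positivity
    exact Nat.cast_lt.1 (show (i : ℝ) < p i by linarith [h2 i])
  have hU : (hyperfilter ℕ : Filter ℕ) ≤ atTop := Nat.hyperfilter_le_atTop
  generalize hyperfilter ℕ = U at hU
  have : CharZero (UP U fun i => ZMod (p i)) := charZero_of_inj_zero fun n hn => by
    rw [← map_natCast (pr U fun i => ZMod (p i)), pr_eq_zero] at hn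
    obtain ⟨i, a1, a2⟩ := (hn.and (hU (eventually_gt_atTop n))).exists
    exact Nat.eq_zero_of_dvd_of_lt ((ZMod.natCast_eq_zero_iff _ _).1 a1) (a2.trans (hpi i))
  let ι₀ := fun i => algebraMap (ZMod (p i)) (AlgebraicClosure (ZMod (p i)))
  let _ := (upMap (U := U) ι₀).toAlgebra
  choose G hG using fun j => assemble (F := fun i => ZMod (p i)) d fun i => S i j
  obtain ⟨f, h, g, P, Q, c1, c2, c3, c4, c5⟩ := curve_param
    (L := UP U fun i => AlgebraicClosure (ZMod (p i))) _
    (not_countable hU G fun i => by simpa only [fun j => hG j i (hd i j)] using h1 i)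
  have hs := Polynomial.map_surjective _ (pr_surj U fun i => ZMod (p i))
  have hs' := Polynomial.map_surjective (mapRingHom _) hs
  obtain ⟨f, rfl, c6, c7⟩ := lifts_and_natDegree_eq_and_monic ((mem_lifts _).2 (hs' f)) c1
  obtain ⟨h, rfl⟩ := hs h
  obtain ⟨g, rfl⟩ := hs'.comp_left g
  obtain ⟨P, rfl⟩ := MvPolynomial.map_surjective _ (pr_surj U _) P
  obtain ⟨Q, rfl⟩ := MvPolynomial.map_surjective _ (pr_surj U _) Q
  have e1 := eventually_par c5
  have e2 := eventually_irreducible (U := U)
    (G := f.map (mapRingHom (RingHom.pi fun i => (ι₀ i).comp (Pi.evalRingHom _ i)))) (by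
      rw [Polynomial.map_map, mapRingHom_comp] at c3 ⊢
      exact c3)
  obtain ⟨l, hl⟩ : ∃ l, pr U _ (h.coeff l) ≠ 0 := by
    by_contra! e
    exact c4 (Polynomial.ext fun l => by rw [coeff_map, e, coeff_zero])
  have e3 := Ultrafilter.eventually_not.2 (mt pr_eq_zero.2 hl)
  obtain ⟨n, hn⟩ := Nat.exists_eq_succ_of_ne_zero (c6 ▸ c2).ne'
  set D := f.support.sup fun k => (f.coeff k).natDegree
  obtain ⟨s, hs⟩ := exists_nat_ge ((2 + D * n) / ε)
  obtain ⟨C, hC⟩ := weil_nat n D s
  obtain ⟨i, a1, a2, a3, a4⟩ := (e1.and (e2.and (e3.and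
    (hU (eventually_gt_atTop (C + s * (f.natDegree * h.natDegree))))))).exists
  have b1 := hC (p i) (f.map (mapRingHom (Pi.evalRingHom _ i))) (c7.map _)
    ((c7.natDegree_map _).trans hn) (fun k => by
      rw [coeff_map]
      refine natDegree_map_le.trans ?_
      by_cases hk : k ∈ f.support
      · exact le_sup (f := fun k => (f.coeff k).natDegree) hk
      · simp [notMem_support_iff.1 hk]) (by
      rw [Polynomial.map_map, mapRingHom_comp] at a2 ⊢
      exact a2) (by have := hpi i; omega)
  have b2 := (par_count (c7.map _) (fun e => a3 (by simpa using congrArg (coeff · l) e)) a1).trans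
    (Nat.add_le_add_left (Nat.mul_le_mul natDegree_map_le natDegree_map_le) _)
  simp only [fun j => hG j i (hd i j)] at b2
  have b3 := (b1.trans (Nat.add_le_add_right (Nat.add_le_add_right (Nat.mul_le_mul_left s b2) _) _))
  have b4 := a4.trans (hpi i)
  rw [div_le_iff₀ hε] at hs
  have b5 := mul_le_mul_of_nonneg_left (h2 i).le (Nat.cast_nonneg (α := ℝ) s)
  have b6 := mul_le_mul_of_nonneg_left hs (Nat.cast_nonneg (α := ℝ) (p i))
  rify at b3 b4
  linarith

end Pool.Agent.Lib.MP_78c6b1_al.Weil
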